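import Pool.Agent.H85R3.MinDefs

set_option autoImplicit false

/-! # Eigenvalues of the Laplace-Beltrami operator with multiplicity -/

namespace Pool.Agent.Q185.RPn

open Pool.Agent.H85R3.Minimal
open scoped ContDiff

/-- `f`, restricted to the `d`-dimensional submanifold `M ⊆ ℝ^N`, is smooth and satisfies
`Δ f = -μ f`. -/
def IsEigenfunction {N : ℕ} (d : ℕ) (M : Set (E N)) (μ : ℝ) (f : E N → ℝ) : Prop :=
  (∀ (U : Set (E d)) (φ : E d → E N), IsLocalParam M U φ → ContDiffOn ℝ ∞ (f ∘ φ) U) ∧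
    ∀ (U : Set (E d)) (φ : E d → E N), IsLocalParam M U φ → ∀ x ∈ U, ∀ u : Fin d → E d,
      IsFrame φ x u → laplaceBeltrami φ (f ∘ φ) x u = -(μ * f (φ x))

/-- The space of functions on `M` spanned by the eigenfunctions with eigenvalue at most `t`. -/
noncomputable def lowSpace {N : ℕ} (d : ℕ) (M : Set (E N)) (t : ℝ) : Submodule ℝ (M → ℝ) :=
  Submodule.span ℝ {g | ∃ μ ≤ t, ∃ f : E N → ℝ, IsEigenfunction d M μ f ∧ ∀ p : M, g p = f p}

/-- The `k`-th eigenvalue of the Laplace-Beltrami operator of `M`, counted with multiplicity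
(starting with `k = 0`): the infimum of all `t` such that there are at least `k + 1` linearly
independent eigenfunctions with eigenvalues at most `t`. -/
noncomputable def eigenvalue {N : ℕ} (d : ℕ) (M : Set (E N)) (k : ℕ) : ℝ :=
  sInf {t : ℝ | ((k + 1 : ℕ) : Cardinal) ≤ Module.rank ℝ (lowSpace d M t)}

end Pool.Agent.Q185.RPn
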