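import Pool.Agent.Q185.RPn.Lower

set_option autoImplicit false
set_option linter.unusedSimpArgs false

/-! # Eigenvalues of real projective space -/

namespace Pool.Agent.Q185.RPn

open Pool.Agent.H85R3.Minimal
open Pool.Agent.Q185.SphH (sb inner_sb)
open scoped ContDiff RealInnerProductSpace Topology

variable {n : ℕ}

/-- The quadratic functions on projective space. -/
noncomputable def gq (hn : 1 ≤ n) (s : Sym2 (Fin (n + 1))) : RP n → ℝ :=
  Sym2.lift ⟨fun i j => fun p : RP n => qf i j p.1, fun i j => by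
    funext p
    obtain ⟨p, x, hx, rfl⟩ := p
    change qf i j (Vh x) = qf j i (Vh x)
    rw [qf_Vh hn, qf_Vh hn, mul_comm (x i)]⟩ s

/-- The point of projective space with given homogeneous coordinates. -/
noncomputable def ptp (x : E (n + 1)) (hx : x ≠ 0) : RP n := ⟨Vh x, Vh_mem hx⟩

theorem gq_val (hn : 1 ≤ n) (i j : Fin (n + 1)) (x : E (n + 1)) (hx : x ≠ 0) :
    gq hn s(i, j) (ptp x hx) = (‖x‖ ^ 2)⁻¹ * (x i * x j) := qf_Vh hn i j x

theorem sb_ne (i : Fin (n + 1)) : (sb i : E (n + 1)) ≠ 0 := by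
  intro h
  have := congrArg (fun v : E (n + 1) => v i) h
  simp [sb] at this

theorem norm_sb (i : Fin (n + 1)) : ‖(sb i : E (n + 1))‖ ^ 2 = 1 := by
  simp [sb]

theorem sb_self (i : Fin (n + 1)) : (sb i : E (n + 1)) i = 1 := by simp [sb]

theorem sb_other {i j : Fin (n + 1)} (h : j ≠ i) : (sb i : E (n + 1)) j = 0 := by simp [sb, h]

theorem norm_comb {i j : Fin (n + 1)} (h : i ≠ j) (c : ℝ) :
    ‖(sb i + c • sb j : E (n + 1))‖ ^ 2 = 1 + c ^ 2 := by
  rw [← real_inner_self_eq_norm_sq, inner_add_left, inner_add_right, inner_add_right]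
  simp only [inner_smul_left, inner_smul_right, inner_sb, sb_self, sb_other h, sb_other h.symm,
    conj_trivial]
  ring

theorem comb_ne {i j : Fin (n + 1)} (h : i ≠ j) (c : ℝ) :
    (sb i + c • sb j : E (n + 1)) ≠ 0 := by
  intro h0
  have := norm_comb h c
  rw [h0, norm_zero] at this
  nlinarith [sq_nonneg c]

theorem gq_indep (hn : 1 ≤ n) : LinearIndependent ℝ (gq hn) := by
  rw [Fintype.linearIndependent_iff]
  intro c hc
  have hval : ∀ p : RP n, ∑ s, c s * gq hn s p = 0 := by
    intro p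
    have := congrFun hc p
    rw [Finset.sum_apply] at this
    exact this
  have hdiag : ∀ i, c s(i, i) = 0 := by
    intro i
    have h := hval (ptp (sb i) (sb_ne i))
    rw [Finset.sum_eq_single s(i, i)] at h
    · rw [gq_val, norm_sb, sb_self] at h
      simpa using h
    · intro s _ hs
      induction s using Sym2.ind with
      | _ a b =>
        rw [gq_val]
        by_cases ha : a = i
        · by_cases hb : b = i
          · rw [ha, hb] at hs
            exact absurd rfl hs
          · rw [sb_other hb]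
            ring
        · rw [sb_other ha]
          ring
    · intro h
      exact absurd (Finset.mem_univ _) h
  intro s
  induction s using Sym2.ind with
  | _ i j =>
    by_cases hij : i = j
    · rw [hij]
      exact hdiag j
    · have h := hval (ptp (sb i + (1 : ℝ) • sb j) (comb_ne hij 1))
      rw [Finset.sum_eq_single s(i, j)] at h
      · rw [gq_val, norm_comb hij] at h
        simp only [PiLp.add_apply, PiLp.smul_apply, sb_self, sb_other hij, sb_other (Ne.symm hij),
          smul_eq_mul] at h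
        linarith
      · intro s _ hs
        induction s using Sym2.ind with
        | _ a b =>
          by_cases hab : a = b
          · rw [hab, hdiag b, zero_mul]
          · rw [gq_val]
            simp only [PiLp.add_apply, PiLp.smul_apply, smul_eq_mul, one_mul]
            by_cases ha : a = i
            · by_cases hb : b = j
              · rw [ha, hb] at hs
                exact absurd rfl hs
              · have hb' : b ≠ i := fun h => hab (ha.trans h.symm)
                rw [sb_other hb, sb_other hb']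
                ring
            · by_cases ha2 : a = j
              · by_cases hb : b = i
                · rw [ha2, hb] at hs
                  exact absurd Sym2.eq_swap hs
                · have hb' : b ≠ j := fun h => hab (ha2.trans h.symm)
                  rw [sb_other hb, sb_other hb']
                  ring
              · rw [sb_other ha, sb_other ha2]
                ring
      · intro h
        exact absurd (Finset.mem_univ _) h

/-- The quartic functions on projective space. -/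
noncomputable def hq (k : Fin n) : RP n → ℝ := fun p => h4 k p.1

theorem hq_val (hn : 1 ≤ n) (k : Fin n) (x : E (n + 1)) (hx : x ≠ 0) :
    hq k (ptp x hx) = ((‖x‖ ^ 2)⁻¹ * (x 0 * x 0)) ^ 2 -
      6 * (((‖x‖ ^ 2)⁻¹ * (x 0 * x 0)) * ((‖x‖ ^ 2)⁻¹ * (x k.succ * x k.succ))) +
      ((‖x‖ ^ 2)⁻¹ * (x k.succ * x k.succ)) ^ 2 := by
  change h4 k (Vh x) = _
  unfold h4
  rw [qf_Vh hn, qf_Vh hn]

/-- The parallelogram functional. -/
noncomputable def fn (k : Fin n) (φ : RP n → ℝ) : ℝ :=
  φ (ptp (sb 0 + (1 : ℝ) • sb k.succ) (comb_ne (Fin.succ_ne_zero k).symm 1)) +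
    φ (ptp (sb 0 + (-1 : ℝ) • sb k.succ) (comb_ne (Fin.succ_ne_zero k).symm (-1))) -
    φ (ptp (sb 0) (sb_ne 0)) - φ (ptp (sb k.succ) (sb_ne k.succ))

theorem fn_gq (hn : 1 ≤ n) (k : Fin n) (s : Sym2 (Fin (n + 1))) : fn k (gq hn s) = 0 := by
  induction s using Sym2.ind with
  | _ a b =>
    unfold fn
    rw [gq_val, gq_val, gq_val, gq_val, norm_sb, norm_sb, norm_comb (Fin.succ_ne_zero k).symm,
      norm_comb (Fin.succ_ne_zero k).symm]
    simp only [PiLp.add_apply, PiLp.smul_apply, smul_eq_mul]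
    ring

theorem fn_hq (hn : 1 ≤ n) (k l : Fin n) : fn k (hq l) = if l = k then -4 else -1 / 2 := by
  unfold fn
  rw [hq_val hn, hq_val hn, hq_val hn, hq_val hn, norm_sb, norm_sb,
    norm_comb (Fin.succ_ne_zero k).symm, norm_comb (Fin.succ_ne_zero k).symm]
  simp only [PiLp.add_apply, PiLp.smul_apply, smul_eq_mul, sb_self,
    sb_other (Fin.succ_ne_zero k).symm, sb_other (Fin.succ_ne_zero l)]
  by_cases h : l = k
  · subst h
    rw [if_pos rfl, sb_self]
    norm_num
  · have h' : l.succ ≠ k.succ := fun hh => h (Fin.succ_injective n hh)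
    rw [if_neg h, sb_other h']
    norm_num

/-- The combined family. -/
noncomputable def fam (hn : 1 ≤ n) : Sym2 (Fin (n + 1)) ⊕ Fin n → (RP n → ℝ) :=
  Sum.elim (gq hn) hq

theorem fam_indep (hn : 1 ≤ n) : LinearIndependent ℝ (fam hn) := by
  rw [Fintype.linearIndependent_iff]
  intro c hc
  rw [Fintype.sum_sum_type] at hc
  simp only [fam, Sum.elim_inl, Sum.elim_inr] at hc
  set d : Fin n → ℝ := fun l => c (Sum.inr l) with hd
  set D : ℝ := ∑ l, d l with hD
  have hfn : ∀ k : Fin n, ∑ l, d l * fn k (hq l) = 0 := by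
    intro k
    have hv : ∀ p : RP n, ∑ s, c (Sum.inl s) * gq hn s p + ∑ l, d l * hq l p = 0 := by
      intro p
      have := congrFun hc p
      rw [Pi.add_apply, Finset.sum_apply, Finset.sum_apply] at this
      exact this
    have h1 := hv (ptp (sb 0 + (1 : ℝ) • sb k.succ) (comb_ne (Fin.succ_ne_zero k).symm 1))
    have h2 := hv (ptp (sb 0 + (-1 : ℝ) • sb k.succ) (comb_ne (Fin.succ_ne_zero k).symm (-1)))
    have h3 := hv (ptp (sb 0) (sb_ne 0))
    have h4 := hv (ptp (sb k.succ) (sb_ne k.succ))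
    have h5 : ∑ s, c (Sum.inl s) * fn k (gq hn s) = 0 :=
      Finset.sum_eq_zero fun s _ => by rw [fn_gq, mul_zero]
    unfold fn at h5 ⊢
    simp only [mul_sub, mul_add, Finset.sum_sub_distrib, Finset.sum_add_distrib] at h5 ⊢
    linear_combination h1 + h2 - h3 - h4 - h5
  have hdk : ∀ k : Fin n, d k = -D / 7 := by
    intro k
    have h1 := hfn k
    simp only [fn_hq hn] at h1
    have h2 : ∀ l, d l * (if l = k then (-4 : ℝ) else -1 / 2) =
        -1 / 2 * d l + (if l = k then -7 / 2 * d l else 0) := by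
      intro l
      split_ifs <;> ring
    simp only [h2, Finset.sum_add_distrib, ← Finset.mul_sum, Finset.sum_ite_eq',
      Finset.mem_univ, if_true] at h1
    rw [← hD] at h1
    linarith
  have hD0 : D = 0 := by
    have h1 : D = ∑ _l : Fin n, (-D / 7) := by
      conv_lhs => rw [hD]
      exact Finset.sum_congr rfl fun l _ => hdk l
    rw [Finset.sum_const, Finset.card_univ, Fintype.card_fin, nsmul_eq_mul] at h1
    have h2 : D * (7 + n) = 0 := by linarith
    exact (mul_eq_zero.mp h2).resolve_right (by positivity)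
  have hd0 : ∀ k, d k = 0 := fun k => by rw [hdk k, hD0]; ring
  have h6 : ∑ s, c (Sum.inl s) • gq hn s = 0 := by
    have h7 : ∑ l, c (Sum.inr l) • (hq l : RP n → ℝ) = 0 :=
      Finset.sum_eq_zero fun l _ => by
        have : c (Sum.inr l) = 0 := hd0 l
        rw [this, zero_smul]
    rw [h7, add_zero] at hc
    exact hc
  have h8 := Fintype.linearIndependent_iff.mp (gq_indep hn) (fun s => c (Sum.inl s)) h6
  rintro (s | l)
  · exact h8 s
  · exact hd0 l

theorem gq_mem (hn : 1 ≤ n) {t : ℝ} (ht : (n : ℝ) ≤ t) (s : Sym2 (Fin (n + 1))) :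
    gq hn s ∈ lowSpace n (RP n) t := by
  have hn0 : (0 : ℝ) ≤ n := by positivity
  induction s using Sym2.ind with
  | _ i j =>
    by_cases hij : i = j
    · subst hij
      have h1 : (fun p : RP n => qf i i p.1 - ((n : ℝ) + 1)⁻¹) ∈ lowSpace n (RP n) t :=
        Submodule.subset_span ⟨n, ht, _, eig_diag hn i, fun p => rfl⟩
      have h2 : (fun _ : RP n => ((n : ℝ) + 1)⁻¹) ∈ lowSpace n (RP n) t :=
        Submodule.subset_span ⟨0, hn0.trans ht, _, eig_const hn _, fun p => rfl⟩
      have h3 := Submodule.add_mem _ h1 h2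
      have h4 : gq hn s(i, i) = (fun p : RP n => qf i i p.1 - ((n : ℝ) + 1)⁻¹) +
          fun _ => ((n : ℝ) + 1)⁻¹ := by
        funext p
        change qf i i p.1 = qf i i p.1 - ((n : ℝ) + 1)⁻¹ + ((n : ℝ) + 1)⁻¹
        ring
      rw [h4]
      exact h3
    · exact Submodule.subset_span ⟨n, ht, _, eig_off hn hij, fun p => rfl⟩

theorem hq_mem (hn : 1 ≤ n) (k : Fin n) : hq k ∈ lowSpace n (RP n) (mu2 n) :=
  Submodule.subset_span ⟨mu2 n, le_rfl, _, eig_h4 hn k, fun _ => rfl⟩

theorem rank_lower (hn : 1 ≤ n) {t : ℝ} (ht : (n : ℝ) ≤ t) :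
    (Fintype.card (Sym2 (Fin (n + 1))) : Cardinal) ≤ Module.rank ℝ (lowSpace n (RP n) t) := by
  have h : LinearIndependent ℝ fun s : Sym2 (Fin (n + 1)) =>
      (⟨gq hn s, gq_mem hn ht s⟩ : lowSpace n (RP n) t) :=
    LinearIndependent.of_comp (lowSpace n (RP n) t).subtype (gq_indep hn)
  simpa using h.cardinal_le_rank

theorem le_mu2 (hn : 1 ≤ n) : (n : ℝ) < mu2 n := by
  unfold mu2
  have hn0 : (1 : ℝ) ≤ n := by exact_mod_cast hn
  rw [lt_div_iff₀ (by positivity)]
  nlinarith

theorem rank_lower2 (hn : 1 ≤ n) : ((Fintype.card (Sym2 (Fin (n + 1))) + n : ℕ) : Cardinal) ≤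
    Module.rank ℝ (lowSpace n (RP n) (mu2 n)) := by
  have hmem : ∀ i, fam hn i ∈ lowSpace n (RP n) (mu2 n) := by
    rintro (s | k)
    · exact gq_mem hn (le_mu2 hn).le s
    · exact hq_mem hn k
  have h : LinearIndependent ℝ fun i : Sym2 (Fin (n + 1)) ⊕ Fin n =>
      (⟨fam hn i, hmem i⟩ : lowSpace n (RP n) (mu2 n)) :=
    LinearIndependent.of_comp (lowSpace n (RP n) (mu2 n)).subtype (fam_indep hn)
  have h2 := h.cardinal_le_rank
  rwa [Cardinal.mk_fintype, Fintype.card_sum, Fintype.card_fin] at h2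

/-- The last index of the first nonzero eigenvalue. -/
def jj (n : ℕ) : ℕ := Fintype.card (Sym2 (Fin (n + 1))) - 1

theorem jj_succ (n : ℕ) : jj n + 1 = Fintype.card (Sym2 (Fin (n + 1))) :=
  Nat.sub_add_cancel (Fintype.card_pos_iff.mpr ⟨s(0, 0)⟩)

theorem bdd (hn : 1 ≤ n) (k : ℕ) :
    ∀ t ∈ {t : ℝ | ((k + 1 : ℕ) : Cardinal) ≤ Module.rank ℝ (lowSpace n (RP n) t)}, 0 ≤ t := by
  intro t ht
  by_contra h
  push Not at h
  rw [Set.mem_ofPred_eq, rank_neg hn h] at ht
  have : ((k + 1 : ℕ) : Cardinal.{0}) ≤ ((0 : ℕ) : Cardinal.{0}) := by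
    rw [Nat.cast_zero]
    exact ht
  rw [Nat.cast_le] at this
  omega

theorem eigenvalue_jj (hn : 1 ≤ n) : eigenvalue n (RP n) (jj n) ≤ n := by
  unfold eigenvalue
  refine csInf_le ⟨0, bdd hn _⟩ ?_
  rw [Set.mem_ofPred_eq, jj_succ]
  exact rank_lower hn le_rfl

theorem eigenvalue_nonneg (hn : 1 ≤ n) (k : ℕ)
    (hne : {t : ℝ | ((k + 1 : ℕ) : Cardinal) ≤ Module.rank ℝ (lowSpace n (RP n) t)}.Nonempty) :
    0 ≤ eigenvalue n (RP n) k := le_csInf hne (bdd hn k)

theorem eigenvalue_jj_nonneg (hn : 1 ≤ n) : 0 ≤ eigenvalue n (RP n) (jj n) := by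
  refine eigenvalue_nonneg hn _ ⟨n, ?_⟩
  rw [Set.mem_ofPred_eq, jj_succ]
  exact rank_lower hn le_rfl

theorem eigenvalue_above (hn : 1 ≤ n) {k : ℕ} (hk1 : 1 ≤ k) (hk2 : k ≤ n) :
    eigenvalue n (RP n) (jj n + k) = mu2 n := by
  have hmem : mu2 n ∈ {t : ℝ | ((jj n + k + 1 : ℕ) : Cardinal) ≤
      Module.rank ℝ (lowSpace n (RP n) t)} := by
    rw [Set.mem_ofPred_eq]
    refine le_trans ?_ (rank_lower2 hn)
    rw [Nat.cast_le, ← jj_succ]
    omega
  unfold eigenvalue
  refine le_antisymm (csInf_le ⟨0, bdd hn _⟩ hmem) (le_csInf ⟨_, hmem⟩ fun t ht => ?_)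
  by_contra h
  push Not at h
  have h1 := rank_upper hn h
  have h2 : ((jj n + k + 1 : ℕ) : Cardinal) ≤ (Fintype.card (Sym2 (Fin (n + 1))) : Cardinal) :=
    le_trans ht h1
  rw [Nat.cast_le, ← jj_succ] at h2
  omega

/-- The universal inequality fails for the Veronese embedding of `ℝP^n`, `n ≥ 6`. -/
theorem violation (h6 : 6 ≤ n) :
    ((n : ℝ) + 3) * eigenvalue n (RP n) (jj n) +
      (eigenvalue n (RP n) (jj n)) ^ 2 / eigenvalue n (RP n) (jj n + 1) + (n : ℝ) ^ 2 <
      ∑ k ∈ Finset.Icc 1 n, eigenvalue n (RP n) (jj n + k) := by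
  have hn : 1 ≤ n := by omega
  have hn6 : (6 : ℝ) ≤ n := by exact_mod_cast h6
  have hsum : ∑ k ∈ Finset.Icc 1 n, eigenvalue n (RP n) (jj n + k) = n * mu2 n := by
    rw [Finset.sum_congr rfl fun k hk => eigenvalue_above hn (Finset.mem_Icc.mp hk).1
      (Finset.mem_Icc.mp hk).2, Finset.sum_const, Nat.card_Icc, nsmul_eq_mul, Nat.add_sub_cancel]
  rw [hsum, eigenvalue_above hn le_rfl (by omega)]
  set l := eigenvalue n (RP n) (jj n) with hl
  have h0 : 0 ≤ l := eigenvalue_jj_nonneg hn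
  have h1 : l ≤ n := eigenvalue_jj hn
  have hmu : 0 < mu2 n := lt_of_lt_of_le (by positivity) (le_mu2 hn).le
  have h2 : l ^ 2 / mu2 n ≤ (n : ℝ) ^ 2 / mu2 n := by
    gcongr
  have h3 : ((n : ℝ) + 3) * l ≤ (n + 3) * n := by gcongr
  have h4 : ((n : ℝ) + 3) * n + (n : ℝ) ^ 2 / mu2 n + (n : ℝ) ^ 2 < n * mu2 n := by
    unfold mu2
    have e1 : (n : ℝ) ^ 2 / (2 * n * (n + 3) / (n + 1)) = n * (n + 1) / (2 * (n + 3)) := by
      field_simp
    have e2 : (n : ℝ) * (2 * n * (n + 3) / (n + 1)) - ((n + 3) * n +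
        n * (n + 1) / (2 * (n + 3)) + n ^ 2) =
        n * (n ^ 2 - 2 * n - 19) / (2 * (n + 1) * (n + 3)) := by
      field_simp
      ring
    have e3 : 0 < (n : ℝ) * (n ^ 2 - 2 * n - 19) / (2 * (n + 1) * (n + 3)) := by
      have : 0 < (n : ℝ) ^ 2 - 2 * n - 19 := by nlinarith
      positivity
    rw [e1]
    linarith
  linarith

end Pool.Agent.Q185.RPn
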