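import Pool.Agent.Q185.RPn.Ver

set_option autoImplicit false
set_option linter.unusedSimpArgs false

/-! # The Veronese embedding of real projective space: minimality -/

namespace Pool.Agent.Q185.RPn

open Pool.Agent.H85R3.Minimal
open scoped ContDiff RealInnerProductSpace Topology

variable {n : ℕ} (b : OrthonormalBasis (Fin (n + 1)) ℝ (E (n + 1)))

/-- The standard basis of the parameter space. -/
noncomputable def eb (i : Fin n) : E n := EuclideanSpace.single i (1 : ℝ)

theorem zz_line (i : Fin n) (t : ℝ) :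
    zz b (0 + t • eb i) = (t * ss n) • b i.castSucc + b (Fin.last n) := by
  unfold zz
  congr 1
  rw [Finset.sum_eq_single i]
  · simp [eb, mul_comm]
  · intro j _ hj
    simp [eb, hj]
  · intro h
    exact absurd (Finset.mem_univ _) h

theorem norm_line (i : Fin n) (t : ℝ) :
    ‖(t * ss n) • b i.castSucc + b (Fin.last n)‖ ^ 2 = 1 + ss n ^ 2 * t ^ 2 := by
  rw [← real_inner_self_eq_norm_sq, inner_add_left, inner_add_right, inner_add_right]
  simp only [inner_smul_left, inner_smul_right, b.inner_eq_ite, conj_trivial]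
  simp [(Fin.castSucc_lt_last i).ne, (Fin.castSucc_lt_last i).ne']
  ring

/-- The first constant vector. -/
noncomputable def vA (i : Fin n) : E ((n + 1) * (n + 1)) := T2 (b i.castSucc) (b i.castSucc)
/-- The second constant vector. -/
noncomputable def vB (i : Fin n) : E ((n + 1) * (n + 1)) :=
  T2 (b i.castSucc) (b (Fin.last n)) + T2 (b (Fin.last n)) (b i.castSucc)
/-- The third constant vector. -/
noncomputable def vC : E ((n + 1) * (n + 1)) := T2 (b (Fin.last n)) (b (Fin.last n))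

theorem par_line (i : Fin n) (t : ℝ) : par b (0 + t • eb i) =
    cc n • ((1 + ss n ^ 2 * t ^ 2)⁻¹ • ((t * ss n) ^ 2 • vA b i + (t * ss n) • vB b i + vC b) -
      ((n : ℝ) + 1)⁻¹ • Idv n) := by
  unfold par Vh
  rw [zz_line, norm_line]
  congr 3
  unfold vA vB vC
  rw [T2_add_left, T2_add_right, T2_add_right, T2_smul_left, T2_smul_right, T2_smul_left,
    T2_smul_right, smul_add, smul_smul]
  rw [sq, ← add_assoc]
  abel_nf

theorem hasDerivAt_q (s t : ℝ) : HasDerivAt (fun t : ℝ => (1 + s ^ 2 * t ^ 2)⁻¹)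
    (-(2 * s ^ 2 * t) * ((1 + s ^ 2 * t ^ 2)⁻¹) ^ 2) t := by
  have h1 : HasDerivAt (fun t : ℝ => 1 + s ^ 2 * t ^ 2) (s ^ 2 * (2 * t)) t := by
    simpa using ((hasDerivAt_pow 2 t).const_mul (s ^ 2)).const_add 1
  have h0 : 1 + s ^ 2 * t ^ 2 ≠ 0 := by positivity
  refine (h1.inv h0).congr_deriv ?_
  field_simp

/-- The polynomial part of the curve. -/
noncomputable def pol (s : ℝ) (A B C : E ((n + 1) * (n + 1))) (t : ℝ) : E ((n + 1) * (n + 1)) :=
  (t * s) ^ 2 • A + (t * s) • B + C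

theorem hasDerivAt_pol (s : ℝ) (A B C : E ((n + 1) * (n + 1))) (t : ℝ) :
    HasDerivAt (pol s A B C) ((2 * t * s ^ 2) • A + s • B) t := by
  have h1 : HasDerivAt (fun t : ℝ => (t * s) ^ 2) (2 * t * s ^ 2) t := by
    have := ((hasDerivAt_id t).mul_const s).pow 2
    refine this.congr_deriv ?_
    simp
    ring
  have h2 : HasDerivAt (fun t : ℝ => t * s) s t := by
    simpa using (hasDerivAt_id t).mul_const s
  exact ((h1.smul_const A).add (h2.smul_const B)).add_const C

/-- The velocity of the curve. -/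
noncomputable def vel (s c : ℝ) (A B C : E ((n + 1) * (n + 1))) (t : ℝ) :
    E ((n + 1) * (n + 1)) :=
  c • ((1 + s ^ 2 * t ^ 2)⁻¹ • ((2 * t * s ^ 2) • A + s • B) +
    (-(2 * s ^ 2 * t) * ((1 + s ^ 2 * t ^ 2)⁻¹) ^ 2) • pol s A B C t)

theorem hasDerivAt_line (i : Fin n) (t : ℝ) :
    HasDerivAt (fun t : ℝ => par b (0 + t • eb i))
      (vel (ss n) (cc n) (vA b i) (vB b i) (vC b) t) t := by
  simp only [par_line]
  have h := (((hasDerivAt_q (ss n) t).smul (hasDerivAt_pol (ss n) (vA b i) (vB b i) (vC b) t)).sub_const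
    (((n : ℝ) + 1)⁻¹ • Idv n)).const_smul (cc n)
  exact h

theorem hasDerivAt_vel (s c : ℝ) (A B C : E ((n + 1) * (n + 1))) :
    HasDerivAt (vel s c A B C) (c • ((2 * s ^ 2) • A - (2 * s ^ 2) • C)) 0 := by
  have h1 : HasDerivAt (fun t : ℝ => (2 * t * s ^ 2) • A + s • B) ((2 * s ^ 2) • A) 0 := by
    have h2 : HasDerivAt (fun t : ℝ => 2 * t * s ^ 2) (2 * s ^ 2) 0 := by
      simpa using ((hasDerivAt_id (0 : ℝ)).const_mul 2).mul_const (s ^ 2)
    exact (h2.smul_const A).add_const _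
  have h2 := (hasDerivAt_q s 0).smul h1
  have h3 : HasDerivAt (fun t : ℝ => -(2 * s ^ 2 * t) * ((1 + s ^ 2 * t ^ 2)⁻¹) ^ 2)
      (-(2 * s ^ 2)) 0 := by
    have h4 : HasDerivAt (fun t : ℝ => -(2 * s ^ 2 * t)) (-(2 * s ^ 2)) 0 :=
      (((hasDerivAt_id (0 : ℝ)).const_mul (2 * s ^ 2)).neg).congr_deriv (by simp)
    have h5 := h4.mul ((hasDerivAt_q s 0).pow 2)
    refine h5.congr_deriv ?_
    simp
  have h4 := h3.smul (hasDerivAt_pol s A B C 0)
  have h5 := (h2.add h4).const_smul c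
  refine h5.congr_deriv ?_
  unfold pol
  simp
  congr 1
  module

theorem contDiffAt_par (y : E n) : ContDiffAt ℝ 2 (par b) y :=
  ((contDiff_par b).of_le le_two).contDiffAt

theorem deriv_par (i : Fin n) :
    fderiv ℝ (par b) 0 (eb i) = (cc n * ss n) • vB b i ∧
    D2 (par b) 0 (eb i) (eb i) = cc n • ((2 * ss n ^ 2) • vA b i - (2 * ss n ^ 2) • vC b) := by
  obtain ⟨h3, h4⟩ := D2_of_curve (contDiffAt_par b 0) (hasDerivAt_line b i)
    (hasDerivAt_vel (ss n) (cc n) (vA b i) (vB b i) (vC b))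
  refine ⟨?_, h4⟩
  rw [h3]
  unfold vel
  simp [smul_smul]

theorem isFrame_par (hn : 1 ≤ n) : IsFrame (par b) 0 eb := by
  unfold IsFrame
  rw [orthonormal_iff_ite]
  intro i j
  rw [(deriv_par b i).1, (deriv_par b j).1, inner_smul_left, inner_smul_right]
  unfold vB
  rw [inner_add_left, inner_add_right, inner_add_right]
  simp only [inner_T2, b.inner_eq_ite, conj_trivial]
  have h1 := cc_ss hn
  by_cases h : i = j
  · subst h
    simp [(Fin.castSucc_lt_last i).ne, (Fin.castSucc_lt_last i).ne']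
    linear_combination h1
  · simp [(Fin.castSucc_lt_last i).ne, (Fin.castSucc_lt_last j).ne', h]

theorem traceD2_par (hn : 1 ≤ n) : traceD2 (par b) 0 eb = (-(n : ℝ)) • par b 0 := by
  have hn0 : (0 : ℝ) < n := by exact_mod_cast hn
  unfold traceD2
  simp only [fun i => (deriv_par b i).2]
  rw [par_zero, Vh_of_norm (b.norm_eq_one _), ← Finset.smul_sum, Finset.sum_sub_distrib,
    ← Finset.smul_sum]
  have h1 := sum_T2 b
  rw [Fin.sum_univ_castSucc] at h1
  have h2 : ∑ i : Fin n, vA b i = Idv n - vC b := by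
    rw [← h1]
    unfold vA vC
    rw [add_sub_cancel_right]
  rw [h2, Finset.sum_const, Finset.card_univ, Fintype.card_fin, smul_comm (-(n : ℝ))]
  congr 1
  change _ = (-(n : ℝ)) • (vC b - _)
  rw [← Nat.cast_smul_eq_nsmul ℝ, smul_sub, smul_sub, smul_smul, smul_smul, ss_sq]
  have h3 : 2 * ((n : ℝ) / (2 * ((n : ℝ) + 1))) = n / (n + 1) := by field_simp
  rw [h3]
  have h4 : (-(n : ℝ)) * ((n : ℝ) + 1)⁻¹ = -(n / (n + 1)) := by field_simp
  rw [h4]
  have h5 : (n : ℝ) / (n + 1) + n * (n / (n + 1)) = n := by field_simp; ring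
  have h6 : (n : ℝ) • vC b = ((n : ℝ) / (n + 1)) • vC b + ((n : ℝ) * (n / (n + 1))) • vC b := by
    rw [← add_smul, h5]
  rw [neg_smul, h6]
  module

theorem isMinimal_RP (hn : 1 ≤ n) : IsMinimalInSphere n (RP n) := by
  refine ⟨?_, ?_⟩
  · rintro p ⟨x, hx, rfl⟩
    simpa using norm_Vh hn hx
  · intro U φ hφ x hx u hu
    obtain ⟨b, hp⟩ := exists_par (hφ.mapsTo hx)
    refine minimal_transfer hφ (isLocalParam_par b hn) hx (Set.mem_univ _) hp.symm hu
      (isFrame_par b hn) ?_
    rw [traceD2_par b hn]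
    exact Submodule.smul_mem _ _ (Submodule.subset_span (Or.inr rfl))

theorem perp (hn : 1 ≤ n) (k : Fin n) :
    ⟪traceD2 (par b) 0 eb, fderiv ℝ (par b) 0 (eb k)⟫ = 0 := by
  rw [traceD2_par b hn, inner_smul_left, (deriv_par b k).1, inner_smul_right, par_zero,
    Vh_of_norm (b.norm_eq_one _), inner_smul_left, inner_sub_left, inner_smul_left]
  unfold vB
  rw [inner_add_right, inner_add_right, inner_T2, inner_T2, real_inner_comm _ (Idv n),
    inner_T2_Idv, real_inner_comm _ (Idv n), inner_T2_Idv]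
  simp only [b.inner_eq_ite]
  simp [(Fin.castSucc_lt_last k).ne, (Fin.castSucc_lt_last k).ne']

/-- The Laplacian at the centre of a chart. -/
theorem laplace_eq (hn : 1 ≤ n) (F : E n → ℝ) :
    laplaceBeltrami (par b) F 0 eb = traceD2 F 0 eb := by
  unfold laplaceBeltrami
  simp only [perp b hn, zero_mul, Finset.sum_const_zero, sub_zero]

end Pool.Agent.Q185.RPn
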