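import Pool.Agent.Q185.RPn.Geo
import Pool.Agent.Q185.RPn.Defs
import Pool.Agent.Q185.SphH.Cls

set_option autoImplicit false
set_option linter.unusedSimpArgs false

/-! # Lifting eigenfunctions of real projective space to the punctured Euclidean space -/

namespace Pool.Agent.Q185.RPn

open Pool.Agent.H85R3.Minimal
open Pool.Agent.Q185.DV
open Pool.Agent.Q185.SphH (U0 Lap Eu Eig cst ell sb r2 r2_apply T hwt mem_U0)
open scoped ContDiff RealInnerProductSpace Topology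

variable {n : ℕ}

section general

variable {V : Type*} [NormedAddCommGroup V] [NormedSpace ℝ V] {U : TopologicalSpace.Opens V}

theorem line_deriv (F : Sm U) (x v : V) (t : ℝ) (hx : x + t • v ∈ U) :
    HasDerivAt (fun t : ℝ => ext U F.1 (x + t • v)) (ext U (D v F).1 (x + t • v)) t := by
  have h1 : HasFDerivAt (ext U F.1) (fderiv ℝ (ext U F.1) (x + t • v)) (x + t • v) :=
    (diffAt F ⟨_, hx⟩).hasFDerivAt
  have h2 : HasDerivAt (fun t : ℝ => x + t • v) v t := by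
    simpa using ((hasDerivAt_id t).smul_const v).const_add x
  have h3 := h1.comp_hasDerivAt t h2
  have h4 : ext U (D v F).1 (x + t • v) = fderiv ℝ (ext U F.1) (x + t • v) v := by
    rw [ext_of_mem _ hx, D_apply]
  rw [h4]
  exact h3

theorem D2_form (f : Sm U) (a b : V) (q : U) : (D a (D b f)).1 q =
      fderiv ℝ (fderiv ℝ (ext U f.1)) q a b := by
  have hd : DifferentiableAt ℝ (fderiv ℝ (ext U f.1)) q := by
    have h1 : ContDiffOn ℝ ∞ (fderiv ℝ (ext U f.1)) U :=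
      ((contDiffOn_infty_iff_fderiv_of_isOpen U.isOpen).mp (smooth f)).2
    exact (h1.contDiffAt (U.isOpen.mem_nhds q.2)).differentiableAt (by simp)
  rw [D_apply]
  have h : ∀ x ∈ U, ext U (D b f).1 x = (fun x => fderiv ℝ (ext U f.1) x b) x := by
    intro x hx
    rw [ext_of_mem _ hx]
    rfl
  rw [fderiv_congr h]
  have h2 := (ContinuousLinearMap.apply ℝ ℝ b).hasFDerivAt.comp (q : V) hd.hasFDerivAt
  have h3 : fderiv ℝ (fun x => fderiv ℝ (ext U f.1) x b) q =
    (ContinuousLinearMap.apply ℝ ℝ b).comp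
      (fderiv ℝ (fderiv ℝ (ext U f.1)) q) := h2.fderiv
  rw [h3]
  rfl

end general

theorem basis_change {m : ℕ} (B : E m →L[ℝ] E m →L[ℝ] ℝ) (b : OrthonormalBasis (Fin m) ℝ (E m)) :
    ∑ i, B (b i) (b i) = ∑ k, B (sb k) (sb k) := by
  have hexp : ∀ i, b i = ∑ k, (b i k) • (sb k : E m) := by
    intro i
    ext l
    rw [WithLp.ofLp_sum, Finset.sum_apply, Finset.sum_eq_single l]
    · simp [sb]
    · intro k _ hk
      simp [sb, hk.symm]
    · intro h
      exact absurd (Finset.mem_univ _) h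
  have h1 : ∀ i, B (b i) (b i) = ∑ k, ∑ l, (b i k * b i l) * B (sb k) (sb l) := by
    intro i
    have e1 : B (b i) = ∑ k, b i k • B (sb k) := by
      conv_lhs => rw [hexp i]
      rw [map_sum]
      simp only [map_smul]
    have e2 : ∀ k, B (sb k) (b i) = ∑ l, b i l * B (sb k) (sb l) := by
      intro k
      conv_lhs => rw [hexp i]
      rw [map_sum]
      simp only [map_smul, smul_eq_mul]
    rw [e1, sum_apply]
    refine Finset.sum_congr rfl fun k _ => ?_
    rw [smul_apply, smul_eq_mul, e2, Finset.mul_sum]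
    refine Finset.sum_congr rfl fun l _ => ?_
    ring
  simp only [h1]
  rw [Finset.sum_comm]
  refine Finset.sum_congr rfl fun k _ => ?_
  rw [Finset.sum_comm, Finset.sum_eq_single k]
  · rw [← Finset.sum_mul]
    have h2 := b.sum_inner_mul_inner (sb k) (sb k)
    have h3 : ⟪(sb k : E m), sb k⟫ = (1 : ℝ) := by
      rw [Pool.Agent.Q185.SphH.inner_sb]
      simp [sb]
    rw [h3] at h2
    have h4 : ∑ i, b i k * b i k = 1 := by
      rw [← h2]
      refine Finset.sum_congr rfl fun i _ => ?_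
      rw [Pool.Agent.Q185.SphH.inner_sb, real_inner_comm, Pool.Agent.Q185.SphH.inner_sb]
    rw [h4, one_mul]
  · intro l _ hl
    rw [← Finset.sum_mul]
    have h2 := b.sum_inner_mul_inner (sb k) (sb l)
    have h3 : ⟪(sb k : E m), sb l⟫ = (0 : ℝ) := by
      rw [Pool.Agent.Q185.SphH.inner_sb]
      simp [sb, hl]
    rw [h3] at h2
    have h4 : ∑ i, b i k * b i l = 0 := by
      rw [← h2]
      refine Finset.sum_congr rfl fun i _ => ?_
      rw [Pool.Agent.Q185.SphH.inner_sb, real_inner_comm, Pool.Agent.Q185.SphH.inner_sb]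
    rw [h4, zero_mul]
  · intro h
    exact absurd (Finset.mem_univ _) h

theorem hom_first {m : ℕ} (F : Sm (U0 m))
    (hom : ∀ (c : ℝ) (x : E m), 0 < c → ext (U0 m) F.1 (c • x) = ext (U0 m) F.1 x)
    {x : E m} (hx : x ≠ 0) (t : ℝ) (ht : -1 < t) : ext (U0 m) (D x F).1 (x + t • x) = 0 := by
  have e : ∀ s : ℝ, x + s • x = (1 + s) • x := by
    intro s
    rw [add_smul, one_smul]
  have hmem : x + t • x ∈ U0 m := by
    rw [mem_U0, e]
    exact smul_ne_zero (by linarith) hx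
  have h1 := line_deriv F x x t hmem
  have h2 : (fun t : ℝ => ext (U0 m) F.1 (x + t • x)) =ᶠ[𝓝 t] fun _ => ext (U0 m) F.1 x := by
    filter_upwards [lt_mem_nhds ht] with s hs
    rw [e, hom _ _ (by linarith)]
  exact h1.unique ((hasDerivAt_const t _).congr_of_eventuallyEq h2)

theorem hom_second {m : ℕ} (F : Sm (U0 m))
    (hom : ∀ (c : ℝ) (x : E m), 0 < c → ext (U0 m) F.1 (c • x) = ext (U0 m) F.1 x)
    (q : U0 m) : (D q.1 (D q.1 F)).1 q = 0 := by
  have hx : q.1 ≠ 0 := q.2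
  have hmem : q.1 + (0 : ℝ) • q.1 ∈ U0 m := by
    rw [zero_smul, add_zero]
    exact q.2
  have h1 := line_deriv (D q.1 F) q.1 q.1 0 hmem
  have h2 : (fun t : ℝ => ext (U0 m) (D q.1 F).1 (q.1 + t • q.1)) =ᶠ[𝓝 0] fun _ => 0 := by
    filter_upwards [lt_mem_nhds (show (-1 : ℝ) < 0 by norm_num)] with s hs
    exact hom_first F hom hx s hs
  have h3 := h1.unique ((hasDerivAt_const (0 : ℝ) (0 : ℝ)).congr_of_eventuallyEq h2)
  rw [zero_smul, add_zero, ext_coe] at h3
  exact h3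

theorem eu_zero {m : ℕ} (F : Sm (U0 m))
    (hom : ∀ (c : ℝ) (x : E m), 0 < c → ext (U0 m) F.1 (c • x) = ext (U0 m) F.1 x) :
    Eu F = 0 := by
  apply Sm_ext
  intro q
  have h1 := hom_first F hom (x := q.1) q.2 0 (by norm_num)
  rw [zero_smul, add_zero, ext_coe, D_apply] at h1
  unfold Eu
  rw [Pool.Agent.Q185.SphH.sm_sum_apply]
  change _ = (0 : ℝ)
  rw [← h1]
  have hexp : q.1 = ∑ k, (q.1 k) • (sb k : E m) := by
    ext l
    rw [WithLp.ofLp_sum, Finset.sum_apply, Finset.sum_eq_single l]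
    · simp [sb]
    · intro k _ hk
      simp [sb, hk.symm]
    · intro h
      exact absurd (Finset.mem_univ _) h
  have h2 : fderiv ℝ (ext (U0 m) F.1) q.1 q.1 =
      ∑ k, q.1 k * fderiv ℝ (ext (U0 m) F.1) q.1 (sb k) := by
    conv_lhs => rw [show fderiv ℝ (ext (U0 m) F.1) q.1 q.1 =
      fderiv ℝ (ext (U0 m) F.1) q.1 (∑ k, (q.1 k) • (sb k : E m)) by rw [← hexp]]
    rw [map_sum]
    refine Finset.sum_congr rfl fun k _ => ?_
    rw [map_smul, smul_eq_mul]
  rw [h2]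
  refine Finset.sum_congr rfl fun k _ => ?_
  change ⟪sb k, q.1⟫ * _ = _
  rw [real_inner_comm, Pool.Agent.Q185.SphH.inner_sb]
  rfl

/-- Smoothness of the lift. -/
theorem lift_smooth (hn : 1 ≤ n) {f : E ((n + 1) * (n + 1)) → ℝ}
    (hf : ∀ (U : Set (E n)) (φ : E n → E ((n + 1) * (n + 1))), IsLocalParam (RP n) U φ →
      ContDiffOn ℝ ∞ (f ∘ φ) U) :
    ContDiffOn ℝ ∞ (fun x : E (n + 1) => f (Vh x)) (U0 (n + 1)) := by
  intro x₀ hx₀
  have hx₀' : x₀ ≠ 0 := hx₀
  have hnx : ‖x₀‖ ≠ 0 := norm_ne_zero_iff.mpr hx₀'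
  obtain ⟨b, hb⟩ := exists_basis (n := n) (x := ‖x₀‖⁻¹ • x₀) (by
    rw [norm_smul, norm_inv, norm_norm, inv_mul_cancel₀ hnx])
  have h1 : ContDiff ℝ ∞ (f ∘ par b) := contDiffOn_univ.mp (hf _ _ (isLocalParam_par b hn))
  let y : E (n + 1) → E n := fun x => WithLp.toLp 2 fun i =>
    (ss n)⁻¹ * (⟪b i.castSucc, x⟫ * ⟪b (Fin.last n), x⟫⁻¹)
  have hpos : 0 < ⟪b (Fin.last n), x₀⟫ := by
    rw [hb, inner_smul_left, real_inner_self_eq_norm_sq]
    simp only [conj_trivial]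
    have := norm_pos_iff.mpr hx₀'
    positivity
  have hy : ContDiffAt ℝ ∞ y x₀ := by
    rw [contDiffAt_piLp]
    intro i
    have h : ∀ x, y x i = (ss n)⁻¹ * (⟪b i.castSucc, x⟫ * ⟪b (Fin.last n), x⟫⁻¹) := fun x => rfl
    simp only [h]
    exact contDiffAt_const.mul ((contDiffAt_const.inner ℝ contDiffAt_id).mul
      ((contDiffAt_const.inner ℝ contDiffAt_id).inv hpos.ne'))
  have h2 : (fun x : E (n + 1) => f (Vh x)) =ᶠ[𝓝 x₀] fun x => (f ∘ par b) (y x) := by
    have hcont : ContinuousAt (fun x : E (n + 1) => ⟪b (Fin.last n), x⟫) x₀ := by fun_prop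
    filter_upwards [hcont.eventually (lt_mem_nhds hpos)] with x hx
    have hx' : ⟪b (Fin.last n), x⟫ ≠ 0 := hx.ne'
    have h3 : zz b (y x) = (⟪b (Fin.last n), x⟫)⁻¹ • x := by
      have h4 : x = ∑ i : Fin (n + 1), ⟪b i, x⟫ • b i := (b.sum_repr' x).symm
      rw [Fin.sum_univ_castSucc] at h4
      have h5 : zz b (y x) = (⟪b (Fin.last n), x⟫)⁻¹ •
          (∑ i : Fin n, ⟪b i.castSucc, x⟫ • b i.castSucc +
            ⟪b (Fin.last n), x⟫ • b (Fin.last n)) := by
        rw [smul_add, Finset.smul_sum]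
        unfold zz
        congr 1
        · refine Finset.sum_congr rfl fun i _ => ?_
          rw [smul_smul]
          congr 1
          change ss n * ((ss n)⁻¹ * (⟪b i.castSucc, x⟫ * ⟪b (Fin.last n), x⟫⁻¹)) = _
          have := (ss_pos hn).ne'
          field_simp
        · rw [smul_smul, inv_mul_cancel₀ hx', one_smul]
      rw [h5, ← h4]
    change f (Vh x) = f (Vh (zz b (y x)))
    rw [h3, Vh_smul (inv_ne_zero hx')]
  exact ((h1.contDiffAt.comp x₀ hy).congr_of_eventuallyEq h2).contDiffWithinAt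

/-- The lift of an eigenfunction. -/
noncomputable def lft (hn : 1 ≤ n) {μ : ℝ} {f : E ((n + 1) * (n + 1)) → ℝ}
    (hf : IsEigenfunction n (RP n) μ f) : Sm (U0 (n + 1)) :=
  res (fun x => f (Vh x)) (lift_smooth hn hf.1)

theorem ext_lft (hn : 1 ≤ n) {μ : ℝ} {f : E ((n + 1) * (n + 1)) → ℝ}
    (hf : IsEigenfunction n (RP n) μ f) {x : E (n + 1)} (hx : x ≠ 0) :
    ext (U0 (n + 1)) (lft hn hf).1 x = f (Vh x) := by
  rw [ext_of_mem _ (show x ∈ U0 (n + 1) from hx)]
  rfl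

theorem lft_smul (hn : 1 ≤ n) {μ : ℝ} {f : E ((n + 1) * (n + 1)) → ℝ}
    (hf : IsEigenfunction n (RP n) μ f) {c : ℝ} (hc : c ≠ 0) (x : E (n + 1)) :
    ext (U0 (n + 1)) (lft hn hf).1 (c • x) = ext (U0 (n + 1)) (lft hn hf).1 x := by
  by_cases hx : x = 0
  · rw [hx, smul_zero]
  · rw [ext_lft hn hf hx, ext_lft hn hf (smul_ne_zero hc hx), Vh_smul hc]

theorem lft_hom (hn : 1 ≤ n) {μ : ℝ} {f : E ((n + 1) * (n + 1)) → ℝ}
    (hf : IsEigenfunction n (RP n) μ f) (c : ℝ) (x : E (n + 1)) (hc : 0 < c) :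
    ext (U0 (n + 1)) (lft hn hf).1 (c • x) = ext (U0 (n + 1)) (lft hn hf).1 x :=
  lft_smul hn hf hc.ne' x

theorem lft_even (hn : 1 ≤ n) {μ : ℝ} {f : E ((n + 1) * (n + 1)) → ℝ}
    (hf : IsEigenfunction n (RP n) μ f) (x : E (n + 1)) :
    ext (U0 (n + 1)) (lft hn hf).1 (-x) = ext (U0 (n + 1)) (lft hn hf).1 x := by
  have := lft_smul hn hf (show (-1 : ℝ) ≠ 0 by norm_num) x
  rwa [neg_one_smul] at this

theorem lft_eig (hn : 1 ≤ n) {μ : ℝ} {f : E ((n + 1) * (n + 1)) → ℝ}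
    (hf : IsEigenfunction n (RP n) μ f) :
    Eig (lft hn hf) (μ * (2 * ((n : ℝ) + 1) / n)) := by
  refine ⟨eu_zero _ (lft_hom hn hf), ?_⟩
  apply Sm_ext
  intro q
  have hq : q.1 ≠ 0 := q.2
  have hnq : ‖q.1‖ ≠ 0 := norm_ne_zero_iff.mpr hq
  have hnp : 0 < ‖q.1‖ := norm_pos_iff.mpr hq
  obtain ⟨b, hb⟩ := exists_basis (n := n) (x := ‖q.1‖⁻¹ • q.1) (by
    rw [norm_smul, norm_inv, norm_norm, inv_mul_cancel₀ hnq])
  have hb' : ‖q.1‖ • b (Fin.last n) = q.1 := by
    rw [hb, smul_smul, mul_inv_cancel₀ hnq, one_smul]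
  set F := lft hn hf with hF
  have h0 := hf.2 Set.univ (par b) (isLocalParam_par b hn) 0 (Set.mem_univ _) eb
    (isFrame_par b hn)
  rw [laplace_eq b hn] at h0
  -- the second derivatives along the coordinate lines
  have hsm : ContDiff ℝ ∞ (f ∘ par b) := contDiffOn_univ.mp (hf.1 _ _ (isLocalParam_par b hn))
  have hD2 : ∀ i : Fin n, D2 (f ∘ par b) 0 (eb i) (eb i) =
      (‖q.1‖ * ss n) ^ 2 *
        fderiv ℝ (fderiv ℝ (ext (U0 (n + 1)) F.1)) q.1 (b i.castSucc) (b i.castSucc) := by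
    intro i
    set v : E (n + 1) := (‖q.1‖ * ss n) • b i.castSucc with hv
    have hline : ∀ t : ℝ, q.1 + t • v =
        ‖q.1‖ • ((t * ss n) • b i.castSucc + b (Fin.last n)) := by
      intro t
      rw [hv, smul_add, hb', smul_smul, smul_smul, add_comm q.1 _]
      congr 2
      ring
    have hne : ∀ t : ℝ, (t * ss n) • b i.castSucc + b (Fin.last n) ≠ 0 := by
      intro t h
      have h1 := norm_line b i t
      rw [h, norm_zero] at h1
      have : 0 < 1 + ss n ^ 2 * t ^ 2 := by positivity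
      rw [← h1] at this
      simp at this
    have hmem : ∀ t : ℝ, q.1 + t • v ∈ U0 (n + 1) := by
      intro t
      rw [mem_U0, hline]
      exact smul_ne_zero hnq (hne t)
    have hcurve : (fun s : ℝ => (f ∘ par b) (0 + s • eb i)) =
        fun t : ℝ => ext (U0 (n + 1)) F.1 (q.1 + t • v) := by
      funext t
      rw [hline, lft_smul hn hf hnq, ext_lft hn hf (hne t)]
      change f (Vh (zz b (0 + t • eb i))) = _
      rw [zz_line]
    have h1 : ∀ t : ℝ, HasDerivAt (fun s : ℝ => (f ∘ par b) (0 + s • eb i))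
        (ext (U0 (n + 1)) (D v F).1 (q.1 + t • v)) t := by
      intro t
      rw [hcurve]
      exact line_deriv F q.1 v t (hmem t)
    have h2 := line_deriv (D v F) q.1 v 0 (hmem 0)
    obtain ⟨-, h3⟩ := D2_of_curve ((hsm.of_le le_two).contDiffAt) h1 h2
    rw [h3, zero_smul, add_zero, ext_coe, D2_form, hv, map_smul, map_smul, smul_apply,
      smul_eq_mul, smul_eq_mul]
    ring
  have h1 : traceD2 (f ∘ par b) 0 eb = (‖q.1‖ * ss n) ^ 2 *
      ∑ i : Fin n, fderiv ℝ (fderiv ℝ (ext (U0 (n + 1)) F.1)) q.1 (b i.castSucc)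
        (b i.castSucc) := by
    unfold traceD2
    rw [Finset.mul_sum]
    exact Finset.sum_congr rfl fun i _ => hD2 i
  have h2 : (Lap F).1 q = ∑ i : Fin n, fderiv ℝ (fderiv ℝ (ext (U0 (n + 1)) F.1)) q.1
      (b i.castSucc) (b i.castSucc) := by
    unfold Lap
    rw [Pool.Agent.Q185.SphH.sm_sum_apply]
    simp only [D2_form]
    rw [← basis_change _ b, Fin.sum_univ_castSucc]
    have h3 := hom_second F (lft_hom hn hf) q
    rw [D2_form] at h3
    have h4 : fderiv ℝ (fderiv ℝ (ext (U0 (n + 1)) F.1)) q.1 (b (Fin.last n))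
        (b (Fin.last n)) = 0 := by
      have h5 : fderiv ℝ (fderiv ℝ (ext (U0 (n + 1)) F.1)) q.1 (‖q.1‖ • b (Fin.last n))
        (‖q.1‖ • b (Fin.last n)) = 0 := by
        rw [hb']
        exact h3
      rw [map_smul, map_smul, smul_apply, smul_eq_mul, smul_eq_mul] at h5
      have h6 := (mul_eq_zero.mp h5).resolve_left hnq
      exact (mul_eq_zero.mp h6).resolve_left hnq
    rw [h4, add_zero]
  rw [h1, ← h2] at h0
  have h3 : (r2 * Lap F).1 q = ‖q.1‖ ^ 2 * (Lap F).1 q := by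
    change (r2 : Sm (U0 (n + 1))).1 q * (Lap F).1 q = _
    rw [r2_apply]
  rw [h3]
  change _ = -((μ * (2 * ((n : ℝ) + 1) / n)) * F.1 q)
  have h4 : F.1 q = f (par b 0) := by
    rw [← ext_coe F.1 q, ext_lft hn hf hq, par_zero, hb, Vh_smul (inv_ne_zero hnq)]
  rw [h4]
  have hn0 : (0 : ℝ) < n := by exact_mod_cast hn
  rw [mul_pow, ss_sq] at h0
  have h5 : ‖q.1‖ ^ 2 * (Lap F).1 q = (2 * ((n : ℝ) + 1) / n) *
      (‖q.1‖ ^ 2 * ((n : ℝ) / (2 * ((n : ℝ) + 1))) * (Lap F).1 q) := by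
    field_simp
  rw [h5, h0]
  ring

end Pool.Agent.Q185.RPn
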