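import Pool.Agent.Q185.RPn.Upper

set_option autoImplicit false
set_option linter.unusedSimpArgs false

/-! # Explicit eigenfunctions on real projective space -/

namespace Pool.Agent.Q185.RPn

open Pool.Agent.H85R3.Minimal
open Pool.Agent.Q185.SphH (sb inner_sb)
open scoped ContDiff RealInnerProductSpace Topology

variable {n : ℕ}

theorem isEigenfunction_of_par (hn : 1 ≤ n) {f : E ((n + 1) * (n + 1)) → ℝ} {μ : ℝ}
    (hf : ContDiff ℝ ∞ f)
    (h : ∀ b : OrthonormalBasis (Fin (n + 1)) ℝ (E (n + 1)),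
      traceD2 (f ∘ par b) 0 eb = -(μ * f (par b 0))) : IsEigenfunction n (RP n) μ f := by
  refine ⟨fun U φ hφ => hf.comp_contDiffOn hφ.smooth, ?_⟩
  intro U φ hφ x hx u hu
  obtain ⟨b, hp⟩ := exists_par (hφ.mapsTo hx)
  rw [laplace_transfer hφ (isLocalParam_par b hn) hx (Set.mem_univ _) hp.symm hu
    (isFrame_par b hn) (hf.comp (contDiff_par b)).contDiffAt, laplace_eq b hn, h b, hp]

/-- The quadratic function. -/
noncomputable def qf (i j : Fin (n + 1)) (p : E ((n + 1) * (n + 1))) : ℝ := beta (sb i) (sb j) p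

theorem qf_Vh (hn : 1 ≤ n) (i j : Fin (n + 1)) (x : E (n + 1)) :
    qf i j (Vh x) = (‖x‖ ^ 2)⁻¹ * (x i * x j) := by
  unfold qf
  rw [beta_Vh hn, real_inner_comm, inner_sb, real_inner_comm, inner_sb]

/-- The value of `qf` along a coordinate line. -/
noncomputable def cu (s a c a' c' t : ℝ) : ℝ :=
  (1 + s ^ 2 * t ^ 2)⁻¹ * ((t * s * a + c) * (t * s * a' + c'))

/-- Its derivative. -/
noncomputable def cu' (s a c a' c' t : ℝ) : ℝ :=
  (-(2 * s ^ 2 * t) * ((1 + s ^ 2 * t ^ 2)⁻¹) ^ 2) * ((t * s * a + c) * (t * s * a' + c')) +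
    (1 + s ^ 2 * t ^ 2)⁻¹ * (s * a * (t * s * a' + c') + (t * s * a + c) * (s * a'))

theorem hasDerivAt_lin (s a c t : ℝ) : HasDerivAt (fun t : ℝ => t * s * a + c) (s * a) t := by
  have := (((hasDerivAt_id t).mul_const s).mul_const a).add_const c
  simpa using this

theorem hasDerivAt_cu (s a c a' c' t : ℝ) :
    HasDerivAt (cu s a c a' c') (cu' s a c a' c' t) t :=
  (hasDerivAt_q s t).mul ((hasDerivAt_lin s a c t).mul (hasDerivAt_lin s a' c' t))

theorem hasDerivAt_cu' (s a c a' c' : ℝ) :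
    HasDerivAt (cu' s a c a' c') (2 * s ^ 2 * (a * a') - 2 * s ^ 2 * (c * c')) 0 := by
  have h3 : HasDerivAt (fun t : ℝ => -(2 * s ^ 2 * t) * ((1 + s ^ 2 * t ^ 2)⁻¹) ^ 2)
      (-(2 * s ^ 2)) 0 := by
    have h4 : HasDerivAt (fun t : ℝ => -(2 * s ^ 2 * t)) (-(2 * s ^ 2)) 0 :=
      (((hasDerivAt_id (0 : ℝ)).const_mul (2 * s ^ 2)).neg).congr_deriv (by simp)
    have h5 := h4.mul ((hasDerivAt_q s 0).pow 2)
    refine h5.congr_deriv ?_
    simp
  have h1 := hasDerivAt_lin s a c 0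
  have h2 := hasDerivAt_lin s a' c' 0
  have h6 : HasDerivAt (fun t : ℝ => s * a * (t * s * a' + c') + (t * s * a + c) * (s * a'))
      (s * a * (s * a') + s * a * (s * a')) 0 :=
    (h2.const_mul (s * a)).add (h1.mul_const (s * a'))
  have h7 := (h3.mul (h1.mul h2)).add ((hasDerivAt_q s 0).mul h6)
  refine h7.congr_deriv ?_
  simp
  ring

theorem cu_zero (s a c a' c' : ℝ) : cu s a c a' c' 0 = c * c' := by
  unfold cu
  simp

theorem cu'_zero (s a c a' c' : ℝ) : cu' s a c a' c' 0 = s * (a * c' + c * a') := by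
  unfold cu'
  simp
  ring

variable (b : OrthonormalBasis (Fin (n + 1)) ℝ (E (n + 1)))

theorem qf_line (hn : 1 ≤ n) (i j : Fin (n + 1)) (l : Fin n) (t : ℝ) :
    qf i j (par b (0 + t • eb l)) =
      cu (ss n) (b l.castSucc i) (b (Fin.last n) i) (b l.castSucc j) (b (Fin.last n) j) t := by
  unfold par
  rw [qf_Vh hn, zz_line, norm_line]
  rfl

theorem contDiff_qf (i j : Fin (n + 1)) : ContDiff ℝ ∞ (qf i j) := contDiff_beta _ _

/-- The trace of the products of coordinates over the tangential part of the basis. -/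
theorem sum_coord (i j : Fin (n + 1)) : ∑ l : Fin n, b l.castSucc i * b l.castSucc j =
    (if i = j then 1 else 0) - b (Fin.last n) i * b (Fin.last n) j := by
  have h1 := b.sum_inner_mul_inner (sb i) (sb j)
  rw [Fin.sum_univ_castSucc] at h1
  have h2 : ⟪(sb i : E (n + 1)), sb j⟫ = if i = j then (1 : ℝ) else 0 := by
    rw [inner_sb]
    simp [sb, eq_comm]
  rw [h2] at h1
  have h3 : ∀ k, ⟪(sb i : E (n + 1)), b k⟫ * ⟪b k, sb j⟫ = b k i * b k j := by
    intro k
    rw [inner_sb, real_inner_comm, inner_sb]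
  simp only [h3] at h1
  linarith

theorem par_zero_val (hn : 1 ≤ n) (i j : Fin (n + 1)) :
    qf i j (par b 0) = b (Fin.last n) i * b (Fin.last n) j := by
  rw [par_zero, qf_Vh hn, b.norm_eq_one]
  simp

theorem trace_qf (hn : 1 ≤ n) (i j : Fin (n + 1)) :
    traceD2 (qf i j ∘ par b) 0 eb = 2 * ss n ^ 2 * (if i = j then 1 else 0) -
      2 * ss n ^ 2 * (n + 1) * (b (Fin.last n) i * b (Fin.last n) j) := by
  have h : ∀ l : Fin n, D2 (qf i j ∘ par b) 0 (eb l) (eb l) =
      2 * ss n ^ 2 * (b l.castSucc i * b l.castSucc j) -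
        2 * ss n ^ 2 * (b (Fin.last n) i * b (Fin.last n) j) := by
    intro l
    have hc : ContDiffAt ℝ 2 (qf i j ∘ par b) 0 :=
      (((contDiff_qf i j).comp (contDiff_par b)).of_le le_two).contDiffAt
    have hfun : (fun s : ℝ => (qf i j ∘ par b) (0 + s • eb l)) =
        cu (ss n) (b l.castSucc i) (b (Fin.last n) i) (b l.castSucc j) (b (Fin.last n) j) := by
      funext t
      exact qf_line b hn i j l t
    refine (D2_of_curve hc (c₁ := cu' (ss n) (b l.castSucc i) (b (Fin.last n) i)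
      (b l.castSucc j) (b (Fin.last n) j)) (fun t => ?_) (hasDerivAt_cu' _ _ _ _ _)).2
    rw [hfun]
    exact hasDerivAt_cu _ _ _ _ _ t
  unfold traceD2
  simp only [h, Finset.sum_sub_distrib, ← Finset.mul_sum, sum_coord]
  rw [Finset.sum_const, Finset.card_univ, Fintype.card_fin, nsmul_eq_mul]
  ring

theorem eig_const (hn : 1 ≤ n) (c : ℝ) : IsEigenfunction n (RP n) 0 fun _ => c := by
  refine isEigenfunction_of_par hn contDiff_const fun b => ?_
  unfold traceD2
  rw [zero_mul, neg_zero]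
  refine Finset.sum_eq_zero fun l _ => ?_
  refine (D2_of_curve (c₁ := fun _ => 0) (φ := (fun _ : E ((n + 1) * (n + 1)) => c) ∘ par b)
    contDiff_const.contDiffAt (fun t => ?_) (hasDerivAt_const 0 0)).2
  exact hasDerivAt_const t c

theorem two_ss (hn : 1 ≤ n) : 2 * ss n ^ 2 * ((n : ℝ) + 1) = n := by
  rw [ss_sq]
  field_simp

theorem eig_off (hn : 1 ≤ n) {i j : Fin (n + 1)} (hij : i ≠ j) :
    IsEigenfunction n (RP n) n (qf i j) := by
  refine isEigenfunction_of_par hn (contDiff_qf i j) fun b => ?_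
  rw [trace_qf b hn, if_neg hij, par_zero_val b hn]
  have := two_ss hn
  linear_combination (-(b (Fin.last n) i * b (Fin.last n) j)) * this

theorem D2_sub_const (i j : Fin (n + 1)) (c : ℝ) :
    traceD2 ((fun p => qf i j p - c) ∘ par b) 0 eb = traceD2 (qf i j ∘ par b) 0 eb := by
  unfold traceD2 D2
  refine Finset.sum_congr rfl fun l _ => ?_
  have h : (fun y => fderiv ℝ ((fun p => qf i j p - c) ∘ par b) y) =
      fun y => fderiv ℝ (qf i j ∘ par b) y := by
    funext y
    exact fderiv_sub_const (f := qf i j ∘ par b) c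
  rw [h]

theorem eig_diag (hn : 1 ≤ n) (i : Fin (n + 1)) :
    IsEigenfunction n (RP n) n fun p => qf i i p - ((n : ℝ) + 1)⁻¹ := by
  refine isEigenfunction_of_par hn ((contDiff_qf i i).sub contDiff_const) fun b => ?_
  rw [D2_sub_const b, trace_qf b hn, if_pos rfl, par_zero_val b hn]
  have h1 := two_ss hn
  have h2 : (n : ℝ) * ((n : ℝ) + 1)⁻¹ = 2 * ss n ^ 2 := by
    have h0 : (n : ℝ) + 1 ≠ 0 := by positivity
    rw [← div_eq_mul_inv, div_eq_iff h0]
    exact h1.symm
  linear_combination (-(b (Fin.last n) i * b (Fin.last n) i)) * h1 - h2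

/-- The quartic function. -/
noncomputable def h4 (k : Fin n) (p : E ((n + 1) * (n + 1))) : ℝ :=
  qf 0 0 p ^ 2 - 6 * (qf 0 0 p * qf k.succ k.succ p) + qf k.succ k.succ p ^ 2

theorem contDiff_h4 (k : Fin n) : ContDiff ℝ ∞ (h4 k) :=
  (((contDiff_qf 0 0).pow 2).sub (contDiff_const.mul ((contDiff_qf 0 0).mul
    (contDiff_qf k.succ k.succ)))).add ((contDiff_qf k.succ k.succ).pow 2)

theorem trace_h4 (hn : 1 ≤ n) (k : Fin n) :
    traceD2 (h4 k ∘ par b) 0 eb = -(mu2 n * h4 k (par b 0)) := by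
  set x := b (Fin.last n) with hx
  set s := ss n with hs
  have h : ∀ l : Fin n, D2 (h4 k ∘ par b) 0 (eb l) (eb l) =
      s ^ 2 * ((8 * x 0 ^ 2 + 4 * x 0 ^ 2 - 12 * x k.succ ^ 2) *
          (b l.castSucc 0 * b l.castSucc 0) -
        48 * (x 0 * x k.succ) * (b l.castSucc 0 * b l.castSucc k.succ) +
        (8 * x k.succ ^ 2 + 4 * x k.succ ^ 2 - 12 * x 0 ^ 2) *
          (b l.castSucc k.succ * b l.castSucc k.succ) -
        (4 * x 0 ^ 4 - 24 * (x 0 ^ 2 * x k.succ ^ 2) + 4 * x k.succ ^ 4)) := by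
    intro l
    have hc : ContDiffAt ℝ 2 (h4 k ∘ par b) 0 :=
      (((contDiff_h4 k).comp (contDiff_par b)).of_le le_two).contDiffAt
    set A := cu s (b l.castSucc 0) (x 0) (b l.castSucc 0) (x 0) with hA
    set B := cu s (b l.castSucc k.succ) (x k.succ) (b l.castSucc k.succ) (x k.succ) with hB
    set A' := cu' s (b l.castSucc 0) (x 0) (b l.castSucc 0) (x 0) with hA'
    set B' := cu' s (b l.castSucc k.succ) (x k.succ) (b l.castSucc k.succ) (x k.succ) with hB'
    have dA : ∀ t, HasDerivAt A (A' t) t := fun t => hasDerivAt_cu _ _ _ _ _ t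
    have dB : ∀ t, HasDerivAt B (B' t) t := fun t => hasDerivAt_cu _ _ _ _ _ t
    have dA' := hasDerivAt_cu' s (b l.castSucc 0) (x 0) (b l.castSucc 0) (x 0)
    have dB' := hasDerivAt_cu' s (b l.castSucc k.succ) (x k.succ) (b l.castSucc k.succ)
      (x k.succ)
    have hfun : (fun t : ℝ => (h4 k ∘ par b) (0 + t • eb l)) =
        fun t => A t * A t - 6 * (A t * B t) + B t * B t := by
      funext t
      change qf 0 0 _ ^ 2 - 6 * (qf 0 0 _ * qf k.succ k.succ _) + qf k.succ k.succ _ ^ 2 = _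
      rw [qf_line b hn, qf_line b hn]
      ring
    have e1 : ∀ t, HasDerivAt (fun t : ℝ => (h4 k ∘ par b) (0 + t • eb l))
        ((A' t * A t + A t * A' t) - 6 * (A' t * B t + A t * B' t) +
          (B' t * B t + B t * B' t)) t := by
      intro t
      rw [hfun]
      exact (((dA t).mul (dA t)).sub (((dA t).mul (dB t)).const_mul 6)).add
        ((dB t).mul (dB t))
    have e2 := (((dA'.mul (dA 0)).add ((dA 0).mul dA')).sub
      (((dA'.mul (dB 0)).add ((dA 0).mul dB')).const_mul 6)).add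
        ((dB'.mul (dB 0)).add ((dB 0).mul dB'))
    rw [(D2_of_curve hc e1 e2).2]
    rw [hA, hB, hA', hB', cu_zero, cu_zero, cu'_zero, cu'_zero]
    ring
  unfold traceD2
  simp only [h]
  rw [← Finset.mul_sum, Finset.sum_sub_distrib, Finset.sum_add_distrib, Finset.sum_sub_distrib,
    ← Finset.mul_sum, ← Finset.mul_sum, ← Finset.mul_sum, sum_coord, sum_coord, sum_coord,
    Finset.sum_const, Finset.card_univ, Fintype.card_fin, nsmul_eq_mul, if_pos rfl, if_pos rfl,
    if_neg (Fin.succ_ne_zero k).symm]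
  unfold h4 mu2
  rw [par_zero_val b hn, par_zero_val b hn, ← hx]
  have h1 : s ^ 2 = (n : ℝ) / (2 * (n + 1)) := ss_sq n
  rw [h1]
  field_simp
  ring

theorem eig_h4 (hn : 1 ≤ n) (k : Fin n) : IsEigenfunction n (RP n) (mu2 n) (h4 k) :=
  isEigenfunction_of_par hn (contDiff_h4 k) fun b => trace_h4 b hn k

end Pool.Agent.Q185.RPn
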