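import Pool.Agent.Q185.RPn.Lift

set_option autoImplicit false
set_option linter.unusedSimpArgs false

/-! # Upper bound for the number of small eigenvalues of real projective space -/

namespace Pool.Agent.Q185.RPn

open Pool.Agent.H85R3.Minimal
open Pool.Agent.Q185.DV
open Pool.Agent.Q185.SphH (U0 Lap Eu Eig cst ell sb r2 r2_apply T hwt mem_U0 Q cst_mul_eq sum_Q
  main_zero moment_zero)
open scoped ContDiff RealInnerProductSpace Topology

variable {N : ℕ}

theorem Eu_add (f g : Sm (U0 N)) : Eu (f + g) = Eu f + Eu g := by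
  unfold Eu
  simp only [D_add, mul_add, Finset.sum_add_distrib]

theorem Eu_smul (r : ℝ) (f : Sm (U0 N)) : Eu (r • f) = r • Eu f := by
  unfold Eu
  simp only [D_smul, mul_smul_comm, Finset.smul_sum]

theorem Lap_add (f g : Sm (U0 N)) : Lap (f + g) = Lap f + Lap g := by
  unfold Lap
  simp only [D_add, Finset.sum_add_distrib]

theorem Lap_smul (r : ℝ) (f : Sm (U0 N)) : Lap (r • f) = r • Lap f := by
  unfold Lap
  simp only [D_smul, Finset.smul_sum]

variable (N) in
/-- The space of even zero-homogeneous eigenfunctions. -/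
def EE (nu : ℝ) : Submodule ℝ (Sm (U0 N)) where
  carrier := {F | Eig F nu ∧
    (∀ (c : ℝ) (x : SphH.E N), 0 < c → ext (U0 N) F.1 (c • x) = ext (U0 N) F.1 x) ∧
    ∀ x, ext (U0 N) F.1 (-x) = ext (U0 N) F.1 x}
  add_mem' := by
    rintro f g ⟨⟨h1, h2⟩, h3, h4⟩ ⟨⟨k1, k2⟩, k3, k4⟩
    refine ⟨⟨?_, ?_⟩, ?_, ?_⟩
    · rw [Eu_add, h1, k1, add_zero]
    · rw [Lap_add, mul_add, h2, k2]
      ring
    · intro c x hc
      rw [SphH.ext_add, SphH.ext_add, h3 c x hc, k3 c x hc]
    · intro x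
      rw [SphH.ext_add, SphH.ext_add, h4, k4]
  zero_mem' := by
    refine ⟨⟨?_, ?_⟩, ?_, ?_⟩
    · unfold Eu; simp
    · unfold Lap; simp
    · intro c x _
      have h : ∀ y, ext (U0 N) (0 : Sm (U0 N)).1 y = 0 := by
        intro y
        unfold ext
        split_ifs <;> rfl
      rw [h, h]
    · intro x
      have h : ∀ y, ext (U0 N) (0 : Sm (U0 N)).1 y = 0 := by
        intro y
        unfold ext
        split_ifs <;> rfl
      rw [h, h]
  smul_mem' := by
    rintro r f ⟨⟨h1, h2⟩, h3, h4⟩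
    refine ⟨⟨?_, ?_⟩, ?_, ?_⟩
    · rw [Eu_smul, h1, smul_zero]
    · rw [Lap_smul, mul_smul_comm, h2, ← cst_mul_eq, ← cst_mul_eq]
      ring
    · intro c x hc
      rw [SphH.ext_smul, SphH.ext_smul, h3 c x hc]
    · intro x
      rw [SphH.ext_smul, SphH.ext_smul, h4]

theorem mem_EE {F : Sm (U0 N)} {nu : ℝ} : F ∈ EE N nu ↔ Eig F nu ∧
    (∀ (c : ℝ) (x : SphH.E N), 0 < c → ext (U0 N) F.1 (c • x) = ext (U0 N) F.1 x) ∧
    ∀ x, ext (U0 N) F.1 (-x) = ext (U0 N) F.1 x := Iff.rfl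

theorem Q_symm (i j : Fin N) : (Q i j : Sm (U0 N)) = Q j i := by
  unfold Q
  ring

/-- The quadratic moments. -/
noncomputable def mom (N : ℕ) : Sm (U0 N) →ₗ[ℝ] (Sym2 (Fin N) → ℝ) where
  toFun F s := Sym2.lift ⟨fun i j => T hwt (F * Q i j), fun i j => by
    change T hwt (F * Q i j) = T hwt (F * Q j i)
    rw [Q_symm]⟩ s
  map_add' F G := by
    funext s
    induction s using Sym2.ind with
    | _ i j =>
      change T hwt ((F + G) * Q i j) = T hwt (F * Q i j) + T hwt (G * Q i j)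
      rw [add_mul, map_add]
  map_smul' r F := by
    funext s
    induction s using Sym2.ind with
    | _ i j =>
      change T hwt ((r • F) * Q i j) = r * T hwt (F * Q i j)
      rw [smul_mul_assoc, map_smul, smul_eq_mul]

theorem mom_apply (F : Sm (U0 N)) (i j : Fin N) : mom N F s(i, j) = T hwt (F * Q i j) := rfl

theorem mom_zero (hN : 1 ≤ N) {F : Sm (U0 N)} (hF : F ∈ EE N 0 ⊔ EE N (2 * N))
    (h : mom N F = 0) : F = 0 := by
  obtain ⟨F0, h0, F1, h1, rfl⟩ := Submodule.mem_sup.mp hF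
  rw [mem_EE] at h0 h1
  have hN' : (1 : ℝ) ≤ N := by exact_mod_cast hN
  have hm : ∀ i j, T hwt ((F0 + F1) * Q i j) = 0 := fun i j => by
    rw [← mom_apply, h]
    rfl
  have hsum : T hwt (F0 + F1) = 0 := by
    have e : F0 + F1 = ∑ i : Fin N, (F0 + F1) * Q i i := by
      rw [← Finset.mul_sum, sum_Q, mul_one]
    rw [e, map_sum]
    exact Finset.sum_eq_zero fun i _ => hm i i
  have hT1 : T hwt F1 = 0 := by
    have := moment_zero h1.1
    exact (mul_eq_zero.mp this).resolve_left (by positivity)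
  have hT0 : T hwt F0 = 0 := by
    rw [map_add, hT1, add_zero] at hsum
    exact hsum
  have hF0 : F0 = 0 := by
    refine main_zero hN h0.1 h0.2.1 h0.2.2 (by positivity) (fun _ => hT0) (fun h2 => ?_)
    exfalso
    have : (0 : ℝ) < 2 * N := by positivity
    linarith
  have hF1 : F1 = 0 := by
    refine main_zero hN h1.1 h1.2.1 h1.2.2 (by linarith) (fun h2 => ?_) (fun _ i j => ?_)
    · exfalso
      have : (0 : ℝ) < 2 * N := by positivity
      linarith
    · have := hm i j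
      rwa [hF0, zero_add] at this
  rw [hF0, hF1, add_zero]

theorem rank_EE (hN : 1 ≤ N) : Module.rank ℝ ↥(EE N 0 ⊔ EE N (2 * N)) ≤
    (Fintype.card (Sym2 (Fin N)) : Cardinal) := by
  have hinj : Function.Injective ((mom N).comp (EE N 0 ⊔ EE N (2 * N)).subtype) := by
    refine (injective_iff_map_eq_zero _).mpr ?_
    intro F hF
    exact Subtype.ext (mom_zero hN F.2 hF)
  have h := LinearMap.rank_le_of_injective _ hinj
  rwa [rank_fun'] at h

variable {n : ℕ}

/-- Pulling back functions on projective space. -/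
noncomputable def pull (n : ℕ) : (RP n → ℝ) →ₗ[ℝ] (U0 (n + 1) → ℝ) where
  toFun g q := g ⟨Vh q.1, Vh_mem q.2⟩
  map_add' _ _ := rfl
  map_smul' _ _ := rfl

theorem pull_injective : Function.Injective (pull n) := by
  intro g g' h
  funext p
  obtain ⟨p, x, hx, rfl⟩ := p
  have hx0 : x ≠ 0 := by
    rintro rfl
    simp at hx
  exact congrFun h ⟨x, hx0⟩

/-- The ratio `2 n (n + 3) / (n + 1)`. -/
noncomputable def mu2 (n : ℕ) : ℝ := 2 * n * (n + 3) / (n + 1)

theorem gen_mem (hn : 1 ≤ n) {t : ℝ} (ht : t < mu2 n) {g : RP n → ℝ} {μ : ℝ} (hμ : μ ≤ t)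
    {f : E ((n + 1) * (n + 1)) → ℝ} (hf : IsEigenfunction n (RP n) μ f)
    (hg : ∀ p : RP n, g p = f p) :
    pull n g ∈ Submodule.map (Subalgebra.toSubmodule (Sm (U0 (n + 1)))).subtype
      (EE (n + 1) 0 ⊔ EE (n + 1) (2 * ((n + 1 : ℕ) : ℝ))) ∧ (μ < 0 → g = 0) := by
  have hn0 : (0 : ℝ) < n := by exact_mod_cast hn
  have hpull : pull n g = (lft hn hf).1 := by
    funext q
    change g _ = f _
    rw [hg]
  have hE : lft hn hf ∈ EE (n + 1) (μ * (2 * ((n : ℝ) + 1) / n)) :=
    ⟨lft_eig hn hf, lft_hom hn hf, lft_even hn hf⟩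
  have hlt : μ * (2 * ((n : ℝ) + 1) / n) < 4 * (((n + 1 : ℕ) : ℝ) + 2) := by
    have h1 : μ < mu2 n := lt_of_le_of_lt hμ ht
    have h2 : mu2 n * (2 * ((n : ℝ) + 1) / n) = 4 * (((n + 1 : ℕ) : ℝ) + 2) := by
      unfold mu2
      push_cast
      field_simp
      ring
    rw [← h2]
    exact mul_lt_mul_of_pos_right h1 (by positivity)
  refine ⟨⟨lft hn hf, ?_, hpull.symm⟩, ?_⟩
  · by_cases h0 : μ * (2 * ((n : ℝ) + 1) / n) = 0
    · rw [h0] at hE
      exact Submodule.mem_sup_left hE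
    · by_cases h1 : μ * (2 * ((n : ℝ) + 1) / n) = 2 * ((n + 1 : ℕ) : ℝ)
      · rw [h1] at hE
        exact Submodule.mem_sup_right hE
      · have : lft hn hf = 0 := main_zero (by omega) hE.1 hE.2.1 hE.2.2 hlt
          (fun h => absurd h h0) (fun h => absurd h h1)
        rw [this]
        exact Submodule.zero_mem _
  · intro hneg
    have h0 : μ * (2 * ((n : ℝ) + 1) / n) < 0 := mul_neg_of_neg_of_pos hneg (by positivity)
    have : lft hn hf = 0 := main_zero (by omega) hE.1 hE.2.1 hE.2.2 hlt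
      (fun h => absurd h h0.ne) (fun h => by
        exfalso
        have : (0 : ℝ) ≤ 2 * ((n + 1 : ℕ) : ℝ) := by positivity
        linarith)
    apply pull_injective
    rw [hpull, this, map_zero]
    rfl

theorem rank_upper (hn : 1 ≤ n) {t : ℝ} (ht : t < mu2 n) :
    Module.rank ℝ (lowSpace n (RP n) t) ≤ (Fintype.card (Sym2 (Fin (n + 1))) : Cardinal) := by
  set W := Submodule.map (Subalgebra.toSubmodule (Sm (U0 (n + 1)))).subtype
      (EE (n + 1) 0 ⊔ EE (n + 1) (2 * ((n + 1 : ℕ) : ℝ))) with hW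
  have h1 : (lowSpace n (RP n) t).map (pull n) ≤ W := by
    unfold lowSpace
    rw [Submodule.map_span, Submodule.span_le]
    rintro _ ⟨g, ⟨μ, hμ, f, hf, hg⟩, rfl⟩
    exact (gen_mem hn ht hμ hf hg).1
  have h2 : Module.rank ℝ (lowSpace n (RP n) t) =
      Module.rank ℝ ((lowSpace n (RP n) t).map (pull n)) :=
    (LinearEquiv.rank_eq (Submodule.equivMapOfInjective (pull n) pull_injective _))
  rw [h2]
  calc Module.rank ℝ ((lowSpace n (RP n) t).map (pull n)) ≤ Module.rank ℝ W :=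
        Submodule.rank_mono h1
    _ = Module.rank ℝ ↥(EE (n + 1) 0 ⊔ EE (n + 1) (2 * ((n + 1 : ℕ) : ℝ))) :=
        (LinearEquiv.rank_eq (Submodule.equivMapOfInjective _
          (Submodule.subtype_injective _) _)).symm
    _ ≤ _ := rank_EE (by omega)

theorem rank_neg (hn : 1 ≤ n) {t : ℝ} (ht : t < 0) :
    Module.rank ℝ (lowSpace n (RP n) t) = 0 := by
  have h : lowSpace n (RP n) t = ⊥ := by
    unfold lowSpace
    rw [Submodule.span_eq_bot]
    rintro g ⟨μ, hμ, f, hf, hg⟩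
    have ht2 : t < mu2 n := by
      have : 0 ≤ mu2 n := by unfold mu2; positivity
      linarith
    exact (gen_mem hn ht2 hμ hf hg).2 (by linarith)
  rw [h]
  simp

end Pool.Agent.Q185.RPn
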