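import Pool.Agent.H85R3.MinDefs

set_option autoImplicit false
set_option linter.unusedSimpArgs false

/-! # The Veronese embedding of real projective space: charts -/

namespace Pool.Agent.Q185.RPn

open Pool.Agent.H85R3.Minimal
open scoped ContDiff RealInnerProductSpace Topology

variable {n : ℕ}

/-- The tensor product of two vectors. -/
noncomputable def T2 (a b : E (n + 1)) : E ((n + 1) * (n + 1)) :=
  WithLp.toLp 2 fun k => a (finProdFinEquiv.symm k).1 * b (finProdFinEquiv.symm k).2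

theorem T2_apply (a b : E (n + 1)) (i j : Fin (n + 1)) :
    T2 a b (finProdFinEquiv (i, j)) = a i * b j := by
  change a (finProdFinEquiv.symm (finProdFinEquiv (i, j))).1 *
    b (finProdFinEquiv.symm (finProdFinEquiv (i, j))).2 = _
  rw [Equiv.symm_apply_apply]

/-- The identity tensor. -/
noncomputable def Idv (n : ℕ) : E ((n + 1) * (n + 1)) :=
  WithLp.toLp 2 fun k => if (finProdFinEquiv.symm k).1 = (finProdFinEquiv.symm k).2 then 1 else 0

theorem Idv_apply (i j : Fin (n + 1)) :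
    Idv n (finProdFinEquiv (i, j)) = if i = j then 1 else 0 := by
  change (if (finProdFinEquiv.symm (finProdFinEquiv (i, j))).1 =
    (finProdFinEquiv.symm (finProdFinEquiv (i, j))).2 then (1 : ℝ) else 0) = _
  rw [Equiv.symm_apply_apply]

theorem vext {p q : E ((n + 1) * (n + 1))}
    (h : ∀ i j, p (finProdFinEquiv (i, j)) = q (finProdFinEquiv (i, j))) : p = q := by
  ext k
  obtain ⟨⟨i, j⟩, rfl⟩ := finProdFinEquiv.surjective k
  exact h i j

theorem inner_eq (p q : E ((n + 1) * (n + 1))) : ⟪p, q⟫ =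
    ∑ i : Fin (n + 1), ∑ j : Fin (n + 1),
      p (finProdFinEquiv (i, j)) * q (finProdFinEquiv (i, j)) := by
  rw [PiLp.inner_apply, ← finProdFinEquiv.sum_comp, Fintype.sum_prod_type]
  refine Finset.sum_congr rfl fun i _ => Finset.sum_congr rfl fun j _ => ?_
  simp [mul_comm]

theorem inner_E {m : ℕ} (p q : E m) : ⟪p, q⟫ = ∑ i, p i * q i := by
  rw [PiLp.inner_apply]
  refine Finset.sum_congr rfl fun i _ => ?_
  simp [mul_comm]

theorem inner_T2 (a b a' b' : E (n + 1)) : ⟪T2 a b, T2 a' b'⟫ = ⟪a, a'⟫ * ⟪b, b'⟫ := by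
  rw [inner_eq, inner_E, inner_E, Finset.sum_mul_sum]
  refine Finset.sum_congr rfl fun i _ => Finset.sum_congr rfl fun j _ => ?_
  rw [T2_apply, T2_apply]
  ring

theorem inner_T2_Idv (a b : E (n + 1)) : ⟪T2 a b, Idv n⟫ = ⟪a, b⟫ := by
  rw [inner_eq, inner_E]
  refine Finset.sum_congr rfl fun i _ => ?_
  rw [Finset.sum_eq_single i]
  · rw [T2_apply, Idv_apply, if_pos rfl, mul_one]
  · intro j _ hj
    rw [Idv_apply, if_neg (Ne.symm hj), mul_zero]
  · intro h
    exact absurd (Finset.mem_univ _) h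

theorem inner_Idv : ⟪Idv n, Idv n⟫ = (n : ℝ) + 1 := by
  rw [inner_eq]
  simp only [Idv_apply]
  simp

theorem T2_add_left (a a' b : E (n + 1)) : T2 (a + a') b = T2 a b + T2 a' b := by
  apply vext
  intro i j
  rw [PiLp.add_apply, T2_apply, T2_apply, T2_apply, PiLp.add_apply]
  ring

theorem T2_add_right (a b b' : E (n + 1)) : T2 a (b + b') = T2 a b + T2 a b' := by
  apply vext
  intro i j
  rw [PiLp.add_apply, T2_apply, T2_apply, T2_apply, PiLp.add_apply]
  ring

theorem T2_smul_left (r : ℝ) (a b : E (n + 1)) : T2 (r • a) b = r • T2 a b := by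
  apply vext
  intro i j
  rw [PiLp.smul_apply, T2_apply, T2_apply, PiLp.smul_apply, smul_eq_mul, smul_eq_mul]
  ring

theorem T2_smul_right (r : ℝ) (a b : E (n + 1)) : T2 a (r • b) = r • T2 a b := by
  apply vext
  intro i j
  rw [PiLp.smul_apply, T2_apply, T2_apply, PiLp.smul_apply, smul_eq_mul, smul_eq_mul]
  ring

theorem sum_T2 (b : OrthonormalBasis (Fin (n + 1)) ℝ (E (n + 1))) :
    ∑ i, T2 (b i) (b i) = Idv n := by
  apply vext
  intro i j
  rw [Idv_apply]
  have h : (∑ k, T2 (b k) (b k)) (finProdFinEquiv (i, j)) = ∑ k, b k i * b k j := by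
    rw [WithLp.ofLp_sum, Finset.sum_apply]
    refine Finset.sum_congr rfl fun k _ => ?_
    rw [T2_apply]
  rw [h]
  have h1 := b.sum_inner_mul_inner (EuclideanSpace.single i (1 : ℝ)) (EuclideanSpace.single j 1)
  have h2 : ⟪(EuclideanSpace.single i (1 : ℝ) : E (n + 1)), EuclideanSpace.single j 1⟫ =
      if i = j then (1 : ℝ) else 0 := by
    rw [EuclideanSpace.inner_single_left]
    simp [eq_comm]
  rw [h2] at h1
  rw [← h1]
  refine Finset.sum_congr rfl fun k _ => ?_
  rw [EuclideanSpace.inner_single_left, EuclideanSpace.inner_single_right]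
  simp

/-- The normalising constant. -/
noncomputable def cc (n : ℕ) : ℝ := √(((n : ℝ) + 1) / n)
/-- The scale of the charts. -/
noncomputable def ss (n : ℕ) : ℝ := √((n : ℝ) / (2 * ((n : ℝ) + 1)))

theorem cc_sq (n : ℕ) : cc n ^ 2 = ((n : ℝ) + 1) / n :=
  Real.sq_sqrt (by positivity)
theorem ss_sq (n : ℕ) : ss n ^ 2 = (n : ℝ) / (2 * ((n : ℝ) + 1)) :=
  Real.sq_sqrt (by positivity)
theorem cc_pos (hn : 1 ≤ n) : 0 < cc n := by
  have : (0 : ℝ) < n := by exact_mod_cast hn
  exact Real.sqrt_pos.mpr (by positivity)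
theorem ss_pos (hn : 1 ≤ n) : 0 < ss n := by
  have : (0 : ℝ) < n := by exact_mod_cast hn
  exact Real.sqrt_pos.mpr (by positivity)
theorem cc_ss (hn : 1 ≤ n) : cc n ^ 2 * ss n ^ 2 * 2 = 1 := by
  have : (0 : ℝ) < n := by exact_mod_cast hn
  rw [cc_sq, ss_sq]
  field_simp

/-- The zero-homogeneous Veronese map. -/
noncomputable def Vh (x : E (n + 1)) : E ((n + 1) * (n + 1)) :=
  cc n • ((‖x‖ ^ 2)⁻¹ • T2 x x - ((n : ℝ) + 1)⁻¹ • Idv n)

/-- The Veronese embedded real projective space. -/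
def RP (n : ℕ) : Set (E ((n + 1) * (n + 1))) := {p | ∃ x : E (n + 1), ‖x‖ = 1 ∧ p = Vh x}

theorem Vh_smul {r : ℝ} (hr : r ≠ 0) (x : E (n + 1)) : Vh (r • x) = Vh x := by
  unfold Vh
  rw [T2_smul_left, T2_smul_right, norm_smul, smul_smul, smul_smul]
  congr 3
  rw [Real.norm_eq_abs, mul_pow, sq_abs, mul_inv]
  field_simp

theorem Vh_mem {x : E (n + 1)} (hx : x ≠ 0) : Vh x ∈ RP n := by
  have h : ‖x‖ ≠ 0 := norm_ne_zero_iff.mpr hx
  refine ⟨‖x‖⁻¹ • x, ?_, (Vh_smul (inv_ne_zero h) x).symm⟩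
  rw [norm_smul, norm_inv, norm_norm, inv_mul_cancel₀ h]

theorem Vh_of_norm {x : E (n + 1)} (hx : ‖x‖ = 1) :
    Vh x = cc n • (T2 x x - ((n : ℝ) + 1)⁻¹ • Idv n) := by
  unfold Vh
  rw [hx, one_pow, inv_one, one_smul]

theorem norm_Vh (hn : 1 ≤ n) {x : E (n + 1)} (hx : ‖x‖ = 1) : ‖Vh x‖ = 1 := by
  have hn0 : (0 : ℝ) < n := by exact_mod_cast hn
  have h : ‖Vh x‖ ^ 2 = 1 := by
    rw [Vh_of_norm hx, ← real_inner_self_eq_norm_sq, inner_smul_left, inner_smul_right,
      inner_sub_left, inner_sub_right, inner_sub_right, inner_T2]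
    simp only [inner_smul_left, inner_smul_right, conj_trivial]
    rw [real_inner_comm (T2 x x), inner_T2_Idv, inner_Idv, real_inner_self_eq_norm_sq, hx]
    have h1 := cc_sq n
    have h2 : cc n * (cc n * (1 ^ 2 * 1 ^ 2 - ((n : ℝ) + 1)⁻¹ * 1 ^ 2 -
        (((n : ℝ) + 1)⁻¹ * 1 ^ 2 - ((n : ℝ) + 1)⁻¹ * (((n : ℝ) + 1)⁻¹ * ((n : ℝ) + 1))))) =
        cc n ^ 2 * (1 - ((n : ℝ) + 1)⁻¹) := by
      field_simp
      ring
    rw [h2, h1]
    field_simp
    ring
  have h0 := norm_nonneg (Vh x)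
  nlinarith

variable (b : OrthonormalBasis (Fin (n + 1)) ℝ (E (n + 1)))

/-- The affine chart. -/
noncomputable def zz (y : E n) : E (n + 1) :=
  ∑ i : Fin n, (ss n * y i) • b i.castSucc + b (Fin.last n)

/-- The chart. -/
noncomputable def par (y : E n) : E ((n + 1) * (n + 1)) := Vh (zz b y)

theorem inner_zz_last (y : E n) : ⟪b (Fin.last n), zz b y⟫ = 1 := by
  unfold zz
  rw [inner_add_right, inner_sum]
  simp only [inner_smul_right, b.inner_eq_ite]
  have : ∀ i : Fin n, ¬ (Fin.last n = i.castSucc) := fun i => (Fin.castSucc_lt_last i).ne'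
  simp [this]

theorem inner_zz_castSucc (y : E n) (i : Fin n) : ⟪b i.castSucc, zz b y⟫ = ss n * y i := by
  unfold zz
  rw [inner_add_right, inner_sum]
  simp only [inner_smul_right, b.inner_eq_ite]
  simp [Fin.castSucc_inj, (Fin.castSucc_lt_last i).ne]

theorem zz_ne (y : E n) : zz b y ≠ 0 := by
  intro h
  have := inner_zz_last b y
  rw [h, inner_zero_right] at this
  exact zero_ne_one this

theorem zz_norm_pos (y : E n) : 0 < ‖zz b y‖ ^ 2 := by
  have := norm_pos_iff.mpr (zz_ne b y)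
  positivity

theorem contDiff_zz : ContDiff ℝ ∞ (zz b) := by
  unfold zz
  refine ContDiff.add (ContDiff.sum fun i _ => ?_) contDiff_const
  exact (contDiff_const.mul (EuclideanSpace.proj (𝕜 := ℝ) i).contDiff).smul contDiff_const

theorem contDiff_T2 {X : Type*} [NormedAddCommGroup X] [NormedSpace ℝ X] {f g : X → E (n + 1)}
    {s : Set X} (hf : ContDiffOn ℝ ∞ f s) (hg : ContDiffOn ℝ ∞ g s) :
    ContDiffOn ℝ ∞ (fun x => T2 (f x) (g x)) s := by
  rw [contDiffOn_piLp]
  intro k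
  have h : ∀ x, T2 (f x) (g x) k =
      f x (finProdFinEquiv.symm k).1 * g x (finProdFinEquiv.symm k).2 := fun x => rfl
  simp only [h]
  exact ((EuclideanSpace.proj (𝕜 := ℝ) _).contDiff.comp_contDiffOn hf).mul
    ((EuclideanSpace.proj (𝕜 := ℝ) _).contDiff.comp_contDiffOn hg)

theorem contDiffOn_Vh : ContDiffOn ℝ ∞ (Vh : E (n + 1) → _) {0}ᶜ := by
  have h1 : ContDiffOn ℝ ∞ (fun x : E (n + 1) => (‖x‖ ^ 2)⁻¹) {0}ᶜ := by
    refine ContDiffOn.inv (contDiff_norm_sq ℝ).contDiffOn fun x hx => ?_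
    have : x ≠ 0 := hx
    positivity
  have h2 : ContDiffOn ℝ ∞ (fun x : E (n + 1) => T2 x x) {0}ᶜ :=
    contDiff_T2 contDiffOn_id contDiffOn_id
  have h3 : ContDiffOn ℝ ∞ (fun x : E (n + 1) => (‖x‖ ^ 2)⁻¹ • T2 x x) {0}ᶜ := h1.smul h2
  exact (h3.sub contDiffOn_const).const_smul _

theorem contDiff_par : ContDiff ℝ ∞ (par b) := by
  rw [← contDiffOn_univ]
  exact contDiffOn_Vh.comp (contDiff_zz b).contDiffOn fun y _ => zz_ne b y

/-- The matrix coefficients recovered from a point. -/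
noncomputable def beta (a a' : E (n + 1)) (p : E ((n + 1) * (n + 1))) : ℝ :=
  ⟪T2 a a', (cc n)⁻¹ • p + ((n : ℝ) + 1)⁻¹ • Idv n⟫

theorem contDiff_beta (a a' : E (n + 1)) : ContDiff ℝ ∞ (beta a a') := by
  unfold beta
  exact contDiff_const.inner ℝ ((contDiff_id.const_smul _).add contDiff_const)

theorem beta_Vh (hn : 1 ≤ n) (a a' x : E (n + 1)) :
    beta a a' (Vh x) = (‖x‖ ^ 2)⁻¹ * (⟪a, x⟫ * ⟪a', x⟫) := by
  unfold beta Vh
  rw [smul_smul, inv_mul_cancel₀ (cc_pos hn).ne', one_smul, sub_add_cancel, inner_smul_right,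
    inner_T2]

/-- The domain of the inverse chart. -/
def OO : Set (E ((n + 1) * (n + 1))) := {p | 0 < beta (b (Fin.last n)) (b (Fin.last n)) p}

/-- The inverse chart. -/
noncomputable def inv (p : E ((n + 1) * (n + 1))) : E n :=
  WithLp.toLp 2 fun i => (ss n)⁻¹ * (beta (b i.castSucc) (b (Fin.last n)) p *
    (beta (b (Fin.last n)) (b (Fin.last n)) p)⁻¹)

theorem isOpen_OO : IsOpen (OO b) :=
  isOpen_lt continuous_const (contDiff_beta _ _).continuous

theorem contDiffAt_inv {p : E ((n + 1) * (n + 1))} (hp : p ∈ OO b) :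
    ContDiffAt ℝ ∞ (inv b) p := by
  rw [contDiffAt_piLp]
  intro i
  have h : ∀ p, inv b p i = (ss n)⁻¹ * (beta (b i.castSucc) (b (Fin.last n)) p *
    (beta (b (Fin.last n)) (b (Fin.last n)) p)⁻¹) := fun p => rfl
  simp only [h]
  have hp' : beta (b (Fin.last n)) (b (Fin.last n)) p ≠ 0 := ne_of_gt hp
  exact contDiffAt_const.mul ((contDiff_beta _ _).contDiffAt.mul
    ((contDiff_beta _ _).contDiffAt.inv hp'))

theorem par_mem_OO (hn : 1 ≤ n) (y : E n) : par b y ∈ OO b := by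
  change 0 < beta _ _ (Vh (zz b y))
  rw [beta_Vh hn, inner_zz_last]
  have := zz_norm_pos b y
  positivity

theorem inv_par (hn : 1 ≤ n) (y : E n) : inv b (par b y) = y := by
  ext i
  change (ss n)⁻¹ * (beta _ _ (Vh (zz b y)) * (beta _ _ (Vh (zz b y)))⁻¹) = y i
  rw [beta_Vh hn, beta_Vh hn, inner_zz_last, inner_zz_castSucc]
  have h1 := norm_ne_zero_iff.mpr (zz_ne b y)
  have h2 := (ss_pos hn).ne'
  field_simp

theorem par_inv (hn : 1 ≤ n) {p : E ((n + 1) * (n + 1))} (hp : p ∈ RP n) (hpO : p ∈ OO b) :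
    par b (inv b p) = p := by
  obtain ⟨x, hx, rfl⟩ := hp
  have h1 : 0 < beta (b (Fin.last n)) (b (Fin.last n)) (Vh x) := hpO
  rw [beta_Vh hn] at h1
  have h2 : ⟪b (Fin.last n), x⟫ ≠ 0 := by
    intro h
    rw [h] at h1
    simp at h1
  have hs := (ss_pos hn).ne'
  have h3 : zz b (inv b (Vh x)) = (⟪b (Fin.last n), x⟫)⁻¹ • x := by
    have h4 : x = ∑ i : Fin (n + 1), ⟪b i, x⟫ • b i := (b.sum_repr' x).symm
    rw [Fin.sum_univ_castSucc] at h4
    have h5 : zz b (inv b (Vh x)) = (⟪b (Fin.last n), x⟫)⁻¹ •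
        (∑ i : Fin n, ⟪b i.castSucc, x⟫ • b i.castSucc +
          ⟪b (Fin.last n), x⟫ • b (Fin.last n)) := by
      rw [smul_add, Finset.smul_sum]
      unfold zz
      congr 1
      · refine Finset.sum_congr rfl fun i _ => ?_
        rw [smul_smul]
        congr 1
        change ss n * ((ss n)⁻¹ * (beta _ _ (Vh x) * (beta _ _ (Vh x))⁻¹)) = _
        rw [beta_Vh hn, beta_Vh hn, hx]
        field_simp
      · rw [smul_smul, inv_mul_cancel₀ h2, one_smul]
    rw [h5, ← h4]
  unfold par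
  rw [h3, Vh_smul (inv_ne_zero h2)]

theorem isLocalParam_par (hn : 1 ≤ n) : IsLocalParam (RP n) Set.univ (par b) where
  isOpen := isOpen_univ
  smooth := (contDiff_par b).contDiffOn
  immersion := by
    intro y _
    have hd1 : HasFDerivAt (par b) (fderiv ℝ (par b) y) y :=
      ((contDiff_par b).differentiable (by simp) y).hasFDerivAt
    have hd2 : HasFDerivAt (inv b) (fderiv ℝ (inv b) (par b y)) (par b y) :=
      ((contDiffAt_inv b (par_mem_OO b hn y)).differentiableAt (by simp)).hasFDerivAt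
    have hd3 := hd2.comp y hd1
    have hd4 : HasFDerivAt (inv b ∘ par b) (ContinuousLinearMap.id ℝ (E n)) y := by
      have : inv b ∘ par b = id := by
        funext z
        exact inv_par b hn z
      rw [this]
      exact hasFDerivAt_id y
    have h5 := hd3.unique hd4
    intro u v huv
    have h6 := congrArg (fun L : E n →L[ℝ] E n => L u) h5
    have h7 := congrArg (fun L : E n →L[ℝ] E n => L v) h5
    simp only [ContinuousLinearMap.comp_apply, ContinuousLinearMap.id_apply] at h6 h7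
    rw [← h6, ← h7, huv]
  injOn := by
    intro y _ z _ hyz
    rw [← inv_par b hn y, ← inv_par b hn z, hyz]
  relOpen := by
    intro W _ hW
    refine ⟨OO b ∩ inv b ⁻¹' W, ?_, ?_⟩
    · have hc : ContinuousOn (inv b) (OO b) := fun p hp =>
        (contDiffAt_inv b hp).continuousAt.continuousWithinAt
      exact hc.isOpen_inter_preimage (isOpen_OO b) hW
    · ext p
      constructor
      · rintro ⟨y, hy, rfl⟩
        refine ⟨Vh_mem (zz_ne b y), par_mem_OO b hn y, ?_⟩
        rw [Set.mem_preimage, inv_par b hn]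
        exact hy
      · rintro ⟨hpM, hpO, hpW⟩
        exact ⟨_, hpW, par_inv b hn hpM hpO⟩

theorem exists_basis {x : E (n + 1)} (hx : ‖x‖ = 1) :
    ∃ b : OrthonormalBasis (Fin (n + 1)) ℝ (E (n + 1)), b (Fin.last n) = x := by
  have h : Orthonormal ℝ (({Fin.last n} : Set (Fin (n + 1))).domRestrict fun _ => x) := by
    constructor
    · intro i
      exact hx
    · intro i j hij
      exact absurd (Subsingleton.elim i j) hij
  obtain ⟨b, hb⟩ := h.exists_orthonormalBasis_extension_of_card_eq (by simp)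
  exact ⟨b, hb _ rfl⟩

theorem zz_zero : zz b 0 = b (Fin.last n) := by
  unfold zz
  simp

theorem par_zero : par b 0 = Vh (b (Fin.last n)) := by
  unfold par
  rw [zz_zero]

theorem exists_par {p : E ((n + 1) * (n + 1))} (hp : p ∈ RP n) :
    ∃ b : OrthonormalBasis (Fin (n + 1)) ℝ (E (n + 1)), par b 0 = p := by
  obtain ⟨x, hx, rfl⟩ := hp
  obtain ⟨b, rfl⟩ := exists_basis hx
  exact ⟨b, par_zero b⟩

theorem RP_eq_image : RP n = Vh '' Metric.sphere (0 : E (n + 1)) 1 := by
  ext p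
  constructor
  · rintro ⟨x, hx, rfl⟩
    exact ⟨x, by simpa using hx, rfl⟩
  · rintro ⟨x, hx, rfl⟩
    exact ⟨x, by simpa using hx, rfl⟩

theorem isClosedSubmanifold_RP (hn : 1 ≤ n) : IsClosedSubmanifold n (RP n) := by
  have hc : ContinuousOn (Vh : E (n + 1) → _) (Metric.sphere 0 1) := by
    refine contDiffOn_Vh.continuousOn.mono fun x hx h0 => ?_
    rw [Set.mem_singleton_iff.mp h0] at hx
    simp at hx
  refine ⟨?_, ?_, ?_⟩
  · rw [RP_eq_image]
    exact (isCompact_sphere _ _).image_of_continuousOn hc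
  · rw [RP_eq_image]
    refine IsConnected.image ?_ _ hc
    refine isConnected_sphere ?_ 0 zero_le_one
    rw [← Module.finrank_eq_rank, finrank_euclideanSpace_fin]
    exact_mod_cast Nat.lt_succ_of_le hn
  · intro p hp
    obtain ⟨b, rfl⟩ := exists_par hp
    exact ⟨Set.univ, par b, isLocalParam_par b hn, ⟨0, Set.mem_univ _, rfl⟩⟩

end Pool.Agent.Q185.RPn
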